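import Pool.Agent.Helper57.SH.PT3

/-!
# Project RC, SHARP, cell engine: the tail `PT` of the rows of (D2) in the head/tail theorem

`hPT_of`: the hypothesis `hPT` of helper75's reduction with a diagonal form with natural coefficients `D i`
(`okPT` is the kernel check). `PTd`: the form, with `2 / nu * (alI * PTd v) = (∑ D i v_i²) / Sc`.
-/

set_option autoImplicit false

open MeasureTheory Set Filter Topology

namespace Pool.Agent.Helper57.SH

open Helper49.LT hiding sg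
open Helper49.RC (om)
open Helper95.RC
open Helper49.Sharp
open Helper95.SH
open Helper41.SH (IA inv)
open Helper56.RC (fc)
open Pool.Agent.Helper20.RC (lk lk_ge lk_sq)
open Helper54.RC.Fast (dg PF AP)
open Helper76.RC.TPoly Helper76.RC.TrD
open Helper76.SH (bif_iff)

/-- the diagonal form -/
noncomputable def PTd (nu alI Sc : ℝ) (D : ℕ → ℕ) (n : ℕ) (v : ℕ → ℝ) : ℝ :=
  nu / (2 * alI) * ((∑ i ∈ Finset.range n, (D i : ℝ) * v i ^ 2) / Sc)

theorem PTd_eq {nu alI Sc : ℝ} (h1 : 0 < nu) (h2 : 0 < alI) (D : ℕ → ℕ) (n : ℕ) (v : ℕ → ℝ) :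
    2 / nu * (alI * PTd nu alI Sc D n v) = (∑ i ∈ Finset.range n, (D i : ℝ) * v i ^ 2) / Sc := by
  unfold PTd
  field_simp

/-- the sum of the first numbers -/
def sumN (f : ℕ → ℕ) : ℕ → ℕ
  | 0 => 0
  | n + 1 => Nat.add (sumN f n) (f n)

theorem sumN_eq (f : ℕ → ℕ) (n : ℕ) : sumN f n = ∑ i ∈ Finset.range n, f i := by
  induction n with
  | zero => simp [sumN]
  | succ n ih =>
    rw [Finset.sum_range_succ, ← ih]
    rfl

/-- `num * τ i ≤ den * D i` -/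
def okDg (num den : ℕ) (τ D : ℕ → ℕ) : ℕ → Bool
  | 0 => true
  | i + 1 => bif Nat.ble (Nat.mul num (τ i)) (Nat.mul den (D i)) then okDg num den τ D i else false

theorem okDg_sound {num den : ℕ} {τ D : ℕ → ℕ} {n : ℕ} (h : okDg num den τ D n = true) (i : ℕ) (hi : i < n) :
    num * τ i ≤ den * D i := by
  induction n with
  | zero => omega
  | succ n ih =>
    unfold okDg at h
    rw [bif_iff] at h
    rcases Nat.lt_succ_iff_lt_or_eq.1 hi with h1 | h1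
    · exact ih h.2 h1
    · subst h1
      exact Nat.le_of_ble_eq_true h.1

/-- the numerator of the weights -/
def numP (te K L l1 nu aN Sc : ℕ) (E : ℕ → ℕ) : ℕ :=
  Nat.mul (Nat.mul Sc (Nat.mul aN nu))
    (Nat.mul (Nat.add l1 3) (Nat.add (sumN (tauN E te K L) (nt K L)) (Nat.mul 15 (w0 E te))))
/-- the denominator of the weights -/
def denP (l1 aD q : ℕ) : ℕ := Nat.mul (Nat.mul aD 128000000000000000) (Nat.mul (Nat.succ l1) (Nat.mul q q))
/-- **the kernel check**: `te / 10⁵ ≥ |eta|`, `nu / 10⁵` the parameter `nu`, `aN / aD` the weight of the rows,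
`Sc` the scale of the matrix, `E n / q` the tail norms -/
def okPT (te K L l1 k1 nu aN aD Sc q : ℕ) (E D : ℕ → ℕ) : Bool :=
  bif Nat.ble 1 (Nat.mul (Nat.mul (Nat.mul aN aD) Sc) (Nat.mul nu q)) then
    bif Nat.ble l1 (Nat.mul 2 k1) then
      bif Nat.ble (Nat.add L 1) (Nat.mul 2 k1) then
        okDg (numP te K L l1 nu aN Sc E) (denP l1 aD q) (tauN E te K L) D (nt K L)
      else false
    else false
  else false

/-- the harmonics of `α` of a head -/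
theorem HkA_zero {P : Par} (a0 : ∀ n, fc P.a0 n = 0) {L : ℕ} {p r : ℤ → ℂ} (hp : Sup L p) (hr : Sup L r) {k : ℕ}
    (hk : L < 2 * k) : HkA P p r k = 0 := by
  have z : ∀ n : ℤ, (L : ℤ) + 2 < |n| → dlA P p r n = 0 := by
    intro n hn
    have k1 : n ∉ Finset.Icc (-((L + 2 : ℕ) : ℤ)) ((L + 2 : ℕ) : ℤ) := by
      rw [Finset.mem_Icc]
      rcases abs_cases n with ⟨h, -⟩ | ⟨h, -⟩ <;> omega
    unfold dlA alA
    rw [a0, wm_sup hp n k1, wm_sup hr n k1]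
    ring
  unfold HkA
  rw [z (2 * k + 2) (by rw [abs_of_nonneg (by omega)]; omega), z (-(2 * k + 2)) (by rw [abs_neg, abs_of_nonneg (by omega)]; omega)]
  simp

/-- **the tail `PT`** -/
theorem hPT_of {c : CD} (a0 : ∀ n, fc c.P.a0 n = 0) {te K L l1 k1 nu aN aD Sc q : ℕ} (hK : Odd K)
    (hη : ‖c.P.eta‖ ≤ te / 100000) (hnu : c.P.nu = nu / 100000) {E1 E2 E D : ℕ → ℕ} (hE : ∀ n, E1 n + E2 n = E n)
    (t1 : ∀ n : ℕ, n ≤ max K L + 3 → TD c.Th1 c.Th1' l1 n (E1 n / q))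
    (t2 : ∀ n : ℕ, n ≤ max K L + 3 → TD c.Th2 c.Th2' l1 n (E2 n / q))
    (h : okPT te K L l1 k1 nu aN aD Sc q E D = true) (v : ℕ → ℝ) (v0 : v 0 = 1) :
    ∑' j : ℕ, (lk (j + k1) ^ 2 - 1) * ‖qk c (max K L) (pV K L v) (rV K L v) (sV K v) (j + k1)‖ ^ 2 ≤
      PTd c.P.nu (aN / aD) Sc D (nt K L) v := by
  unfold okPT at h
  rw [bif_iff, bif_iff, bif_iff] at h
  obtain ⟨h1, h2, h3, h4⟩ := h
  have h1 : 1 ≤ ((aN * aD) * Sc) * (nu * q) := Nat.le_of_ble_eq_true h1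
  have h2 : l1 ≤ 2 * k1 := Nat.le_of_ble_eq_true h2
  have h3 : L + 1 ≤ 2 * k1 := Nat.le_of_ble_eq_true h3
  have pos : 0 < ((aN * aD) * Sc) * (nu * q) := h1
  obtain ⟨p1, p2⟩ := CanonicallyOrderedAdd.mul_pos.1 pos
  obtain ⟨p3, p4⟩ := CanonicallyOrderedAdd.mul_pos.1 p1
  obtain ⟨p5, p6⟩ := CanonicallyOrderedAdd.mul_pos.1 p3
  obtain ⟨p7, p8⟩ := CanonicallyOrderedAdd.mul_pos.1 p2
  have r4 : (0 : ℝ) < Sc := by exact_mod_cast p4
  have r5 : (0 : ℝ) < aN := by exact_mod_cast p5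
  have r6 : (0 : ℝ) < aD := by exact_mod_cast p6
  have r7 : (0 : ℝ) < nu := by exact_mod_cast p7
  have r8 : (0 : ℝ) < q := by exact_mod_cast p8
  have hDg := okDg_sound h4
  set M := max K L with hM
  have hKM : K ≤ M := le_max_left _ _
  have hLM : L ≤ M := le_max_right _ _
  set T : ℝ := ((sumN (tauN E te K L) (nt K L) : ℕ) : ℝ) + 15 * (w0 E te : ℕ) with hT
  -- the rows
  have eqk : ∀ j : ℕ, ‖qk c M (pV K L v) (rV K L v) (sV K v) (j + k1)‖ ^ 2 = c.P.nu ^ 2 / 4 *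
      ‖wF c.Th1 c.Th1' (M + 3) (C1 c.P (pV K L v) (rV K L v) (sV K v)) (2 * (j + k1 : ℕ) + 2) +
        wF c.Th2 c.Th2' (M + 3) (C2 c.P (pV K L v) (rV K L v) (sV K v)) (2 * (j + k1 : ℕ) + 2)‖ ^ 2 := by
    intro j
    unfold qk
    have e0 : HkA c.P (pV K L v) (rV K L v) (j + k1) = 0 :=
      HkA_zero a0 (hV_sup L (bp K) v) (hV_sup L (br K L) v) (by omega : L < 2 * (j + k1))
    rw [e0, zero_sub, norm_neg, norm_mul]
    have e : ‖(c.P.nu / 2 : ℂ)‖ = |c.P.nu / 2| := by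
      rw [← Real.norm_eq_abs, ← Complex.norm_real]
      push_cast
      rfl
    rw [e, mul_pow, sq_abs]
    unfold WA
    ring
  simp_rw [eqk]
  have e2 : ∀ j : ℕ, (lk (j + k1) ^ 2 - 1) * (c.P.nu ^ 2 / 4 *
      ‖wF c.Th1 c.Th1' (M + 3) (C1 c.P (pV K L v) (rV K L v) (sV K v)) (2 * (j + k1 : ℕ) + 2) +
        wF c.Th2 c.Th2' (M + 3) (C2 c.P (pV K L v) (rV K L v) (sV K v)) (2 * (j + k1 : ℕ) + 2)‖ ^ 2) =
      c.P.nu ^ 2 / 4 * ((lk (j + k1) ^ 2 - 1) *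
      ‖wF c.Th1 c.Th1' (M + 3) (C1 c.P (pV K L v) (rV K L v) (sV K v)) (2 * (j + k1 : ℕ) + 2) +
        wF c.Th2 c.Th2' (M + 3) (C2 c.P (pV K L v) (rV K L v) (sV K v)) (2 * (j + k1 : ℕ) + 2)‖ ^ 2) := fun j => by ring
  simp_rw [e2]
  rw [tsum_mul_left]
  have tdn : ∀ (Θ Θ' : ℝ → ℝ) (F : ℕ → ℕ), (∀ n : ℕ, n ≤ M + 3 → TD Θ Θ' l1 n (F n / q)) →
      ∀ n ∈ Finset.Icc (-((M + 3 : ℕ) : ℤ)) ((M + 3 : ℕ) : ℤ), TD Θ Θ' l1 n ((fun n : ℤ => (F n.natAbs : ℝ) / q) n) := by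
    intro Θ Θ' F hF n hn
    rw [Finset.mem_Icc] at hn
    have h5 := hF n.natAbs (by omega)
    rcases Int.natAbs_eq n with e | e
    · rw [← e] at h5
      exact h5
    · have h6 := h5.neg
      rw [← e] at h6
      exact h6
  have key := PT_abs (l1 := l1) (k1 := k1) (M := M + 3) h2 (a1 := C1 c.P (pV K L v) (rV K L v) (sV K v))
    (a2 := C2 c.P (pV K L v) (rV K L v) (sV K v)) (tdn _ _ E1 t1) (tdn _ _ E2 t2)
  have hd := head_CB (P := c.P) hη (E1 := fun n => (E1 n : ℝ) / q) (E2 := fun n => (E2 n : ℝ) / q)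
    (fun n => by positivity) (fun n => by positivity) hK hKM hLM E r8
    (fun n => by rw [← hE n]; push_cast; ring) v v0
  rw [← sumN_eq] at hd
  set X := ∑ n ∈ Finset.Icc (-((M + 3 : ℕ) : ℤ)) ((M + 3 : ℕ) : ℤ),
        (‖C1 c.P (pV K L v) (rV K L v) (sV K v) n‖ * ((E1 n.natAbs : ℝ) / q) +
          ‖C2 c.P (pV K L v) (rV K L v) (sV K v) n‖ * ((E2 n.natAbs : ℝ) / q)) with hX
  set Qf := ∑ i ∈ Finset.range (nt K L), (tauN E te K L i : ℝ) * v i ^ 2 with hQf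
  have hd : (400000 * q * X) ^ 2 ≤ T / 2 * Qf := hd
  have key : ∑' k : ℕ, (lk (k + k1) ^ 2 - 1) *
      ‖wF c.Th1 c.Th1' (M + 3) (C1 c.P (pV K L v) (rV K L v) (sV K v)) (2 * (k + k1 : ℕ) + 2) +
        wF c.Th2 c.Th2' (M + 3) (C2 c.P (pV K L v) (rV K L v) (sV K v)) (2 * (k + k1 : ℕ) + 2)‖ ^ 2 ≤
      ((l1 : ℝ) + 3) / (2 * (l1 + 1)) * X ^ 2 := key
  have hX2 : X ^ 2 ≤ T * Qf / (320000000000 * q ^ 2) := by
    rw [le_div_iff₀ (by positivity)]
    nlinarith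
  have hl : (0 : ℝ) < (l1 : ℝ) + 1 := by positivity
  -- the weights
  have hW : (Sc * (aN * nu) * (((l1 : ℝ) + 3) * T)) * Qf ≤
      aD * 128000000000000000 * ((l1 + 1) * (q * q)) * ∑ i ∈ Finset.range (nt K L), (D i : ℝ) * v i ^ 2 := by
    rw [hQf, Finset.mul_sum, Finset.mul_sum]
    refine Finset.sum_le_sum fun i hi => ?_
    have h5 := hDg i (Finset.mem_range.1 hi)
    have e5 : numP te K L l1 nu aN Sc E =
        (Sc * (aN * nu)) * ((l1 + 3) * (sumN (tauN E te K L) (nt K L) + 15 * w0 E te)) := rfl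
    have e6 : denP l1 aD q = (aD * 128000000000000000) * ((l1 + 1) * (q * q)) := rfl
    rw [e5, e6] at h5
    have h6 : ((Sc * (aN * nu) * (((l1 : ℝ) + 3) * T)) * (tauN E te K L i : ℝ)) ≤
        aD * 128000000000000000 * ((l1 + 1) * (q * q)) * (D i : ℝ) := by
      rw [hT]
      exact_mod_cast h5
    have h7 := mul_le_mul_of_nonneg_right h6 (sq_nonneg (v i))
    calc _ = ((Sc * (aN * nu) * (((l1 : ℝ) + 3) * T)) * (tauN E te K L i : ℝ)) * v i ^ 2 := by ring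
      _ ≤ _ := h7
      _ = _ := by ring
  set Df := ∑ i ∈ Finset.range (nt K L), (D i : ℝ) * v i ^ 2 with hDf
  unfold PTd
  rw [hnu]
  calc (((nu : ℝ) / 100000) ^ 2 / 4) * ∑' k : ℕ, (lk (k + k1) ^ 2 - 1) *
      ‖wF c.Th1 c.Th1' (M + 3) (C1 c.P (pV K L v) (rV K L v) (sV K v)) (2 * (k + k1 : ℕ) + 2) +
        wF c.Th2 c.Th2' (M + 3) (C2 c.P (pV K L v) (rV K L v) (sV K v)) (2 * (k + k1 : ℕ) + 2)‖ ^ 2
      ≤ (((nu : ℝ) / 100000) ^ 2 / 4) * (((l1 : ℝ) + 3) / (2 * (l1 + 1)) * (T * Qf / (320000000000 * q ^ 2))) := by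
        refine mul_le_mul_of_nonneg_left (key.trans ?_) (by positivity)
        exact mul_le_mul_of_nonneg_left hX2 (by positivity)
    _ = (nu / (2 * aN) * aD / 100000 / Sc) * ((Sc * (aN * nu) * (((l1 : ℝ) + 3) * T)) * Qf /
          (aD * 128000000000000000 * ((l1 + 1) * (q * q)))) := by
        field_simp
        ring
    _ ≤ (nu / (2 * aN) * aD / 100000 / Sc) * Df := by
        refine mul_le_mul_of_nonneg_left ?_ (by positivity)
        rw [div_le_iff₀ (by positivity)]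
        linarith
    _ = nu / 100000 / (2 * (aN / aD)) * (Df / Sc) := by
        field_simp

end Pool.Agent.Helper57.SH
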