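import Pool.Agent.Helper95.SH.Head
import Pool.Agent.Helper51.RC.M_O7

/-!
# Project RC, SHARP, cell engine: the tail of the rows of (D2) for a head vector, abstract part

`mink`: Minkowski for finite families. `TD Θ Θ' l1 n δ`: the row family `k Rn n k`, `|k| > l1`, has the norm at most `δ`.
`PT_abs`: `∑ (l² - 1) |W_l|² ≤ (l1 + 3) / (2 (l1 + 1)) (∑ |a n| δ n)²`, rows `l = 2 k + 2 > l1`.
-/

set_option autoImplicit false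

open MeasureTheory Set Filter Topology

namespace Pool.Agent.Helper57.SH

open Helper49.LT (ee ee_zero norm_ee continuous_ee)
open Helper95.SH (Rn En wF Tc_inv Rn_neg)
open Helper41.SH (IA inv)
open Helper56.RC (fc)
open Pool.Agent.Helper20.RC (lk lk_ge lk_sq)

/-- Minkowski for finite families of nonnegative numbers -/
theorem mink {ι κ : Type*} (S : Finset κ) (I : Finset ι) (x δ : ι → ℝ) (y : ι → κ → ℝ) (hx : ∀ i ∈ I, 0 ≤ x i)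
    (hδ : ∀ i ∈ I, 0 ≤ δ i) (h : ∀ i ∈ I, ∑ k ∈ S, y i k ^ 2 ≤ δ i ^ 2) :
    ∑ k ∈ S, (∑ i ∈ I, x i * y i k) ^ 2 ≤ (∑ i ∈ I, x i * δ i) ^ 2 := by
  have e1 : ∑ k ∈ S, (∑ i ∈ I, x i * y i k) ^ 2 = ∑ i ∈ I, ∑ j ∈ I, x i * x j * ∑ k ∈ S, y i k * y j k := by
    simp_rw [sq, Finset.sum_mul_sum]
    rw [Finset.sum_comm]
    refine Finset.sum_congr rfl fun i _ => ?_
    rw [Finset.sum_comm]
    refine Finset.sum_congr rfl fun j _ => ?_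
    rw [Finset.mul_sum]
    exact Finset.sum_congr rfl fun k _ => by ring
  have e2 : (∑ i ∈ I, x i * δ i) ^ 2 = ∑ i ∈ I, ∑ j ∈ I, x i * x j * (δ i * δ j) := by
    rw [sq, Finset.sum_mul_sum]
    exact Finset.sum_congr rfl fun i _ => Finset.sum_congr rfl fun j _ => by ring
  rw [e1, e2]
  refine Finset.sum_le_sum fun i hi => Finset.sum_le_sum fun j hj => ?_
  refine mul_le_mul_of_nonneg_left ?_ (mul_nonneg (hx i hi) (hx j hj))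
  have h1 := Finset.sum_mul_sq_le_sq_mul_sq S (y i) (y j)
  have h2 : (∑ k ∈ S, y i k * y j k) ^ 2 ≤ (δ i * δ j) ^ 2 := by
    rw [mul_pow]
    exact h1.trans (mul_le_mul (h i hi) (h j hj) (Finset.sum_nonneg fun _ _ => sq_nonneg _) (sq_nonneg _))
  exact (abs_le_of_sq_le_sq' h2 (mul_nonneg (hδ i hi) (hδ j hj))).2

/-- the tail norm of a mode -/
def TD (Θ Θ' : ℝ → ℝ) (l1 : ℕ) (n : ℤ) (δ : ℝ) : Prop :=
  0 ≤ δ ∧ ∀ S : Finset ℤ, (∀ k ∈ S, (l1 : ℤ) < |k|) → ∑ k ∈ S, ‖(k : ℂ) * Rn Θ Θ' n k‖ ^ 2 ≤ δ ^ 2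

theorem TD.mono {Θ Θ' : ℝ → ℝ} {l1 : ℕ} {n : ℤ} {δ δ' : ℝ} (h : TD Θ Θ' l1 n δ) (hd : δ ≤ δ') : TD Θ Θ' l1 n δ' :=
  ⟨h.1.trans hd, fun S hS => (h.2 S hS).trans (pow_le_pow_left₀ h.1 hd 2)⟩

theorem TD.neg {Θ Θ' : ℝ → ℝ} {l1 : ℕ} {n : ℤ} {δ : ℝ} (h : TD Θ Θ' l1 n δ) : TD Θ Θ' l1 (-n) δ := by
  refine ⟨h.1, fun S hS => ?_⟩
  have h1 := h.2 (S.image fun k => -k) (fun k hk => by
    obtain ⟨j, hj, rfl⟩ := Finset.mem_image.1 hk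
    rw [abs_neg]
    exact hS j hj)
  rw [Finset.sum_image (fun a _ b _ hab => neg_injective hab)] at h1
  refine le_trans (le_of_eq ?_) h1
  refine Finset.sum_congr rfl fun k _ => ?_
  rw [Rn_neg, norm_mul, norm_mul, norm_neg, Complex.norm_conj]
  congr 2
  rw [Int.cast_neg, norm_neg]

/-- the factor of one mode -/
noncomputable def ym (Θ Θ' : ℝ → ℝ) (n : ℤ) (k : ℕ) : ℝ :=
  Real.sqrt (lk k ^ 2 - 1) * ((‖Rn Θ Θ' n (2 * k + 2 + 1)‖ + ‖Rn Θ Θ' n (1 - (2 * k + 2))‖) / 2)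

theorem ym_sum {Θ Θ' : ℝ → ℝ} {l1 : ℕ} {n : ℤ} {δ : ℝ} (h : TD Θ Θ' l1 n δ) (S : Finset ℕ)
    (hS : ∀ k ∈ S, l1 ≤ 2 * k) : ∑ k ∈ S, ym Θ Θ' n k ^ 2 ≤ ((l1 : ℝ) + 3) / (2 * (l1 + 1)) * δ ^ 2 := by
  have hl : (0 : ℝ) < (l1 : ℝ) + 1 := by positivity
  set c : ℝ := ((l1 : ℝ) + 3) / (l1 + 1) with hc
  have hc1 : 1 ≤ c := by
    rw [hc, one_le_div hl]; linarith
  set S1 : Finset ℤ := S.image fun k : ℕ => (2 * (k : ℤ) + 2 + 1) with hS1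
  set S2 : Finset ℤ := S.image fun k : ℕ => (1 - (2 * (k : ℤ) + 2)) with hS2
  have hdis : Disjoint S1 S2 := by
    rw [Finset.disjoint_left]
    intro a ha hb
    obtain ⟨i, _, hi⟩ := Finset.mem_image.1 ha
    obtain ⟨j, _, hj⟩ := Finset.mem_image.1 hb
    omega
  have hT := h.2 (S1 ∪ S2) (fun k hk => by
    rcases Finset.mem_union.1 hk with hk | hk
    · obtain ⟨i, hi, rfl⟩ := Finset.mem_image.1 hk
      have := hS i hi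
      rw [abs_of_nonneg (by omega)]
      omega
    · obtain ⟨i, hi, rfl⟩ := Finset.mem_image.1 hk
      have := hS i hi
      rw [abs_of_nonpos (by omega)]
      omega)
  rw [Finset.sum_union hdis, hS1, hS2, Finset.sum_image (fun a _ b _ hab => by simpa using hab),
    Finset.sum_image (fun a _ b _ hab => by simpa using hab), ← Finset.sum_add_distrib] at hT
  have e : ((l1 : ℝ) + 3) / (2 * (l1 + 1)) * δ ^ 2 = c / 2 * δ ^ 2 := by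
    rw [hc]; field_simp
  rw [e]
  refine le_trans ?_ (mul_le_mul_of_nonneg_left hT (by positivity : (0 : ℝ) ≤ c / 2))
  rw [Finset.mul_sum]
  refine Finset.sum_le_sum fun k hk => ?_
  have hk1 : (l1 : ℝ) ≤ 2 * k := by exact_mod_cast hS k hk
  set X := ‖Rn Θ Θ' n (2 * k + 2 + 1)‖ with hX
  set Y := ‖Rn Θ Θ' n (1 - (2 * k + 2))‖ with hY
  have hlk : lk k = 2 * (k : ℝ) + 2 := by unfold lk; ring
  have hs := lk_sq k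
  unfold ym
  rw [mul_pow, Real.sq_sqrt hs.le, norm_mul, norm_mul, ← hX, ← hY, Complex.norm_intCast, Complex.norm_intCast]
  have hk0 : (0 : ℝ) ≤ k := Nat.cast_nonneg k
  have a1 : |((2 * (k : ℤ) + 2 + 1 : ℤ) : ℝ)| = 2 * k + 3 := by
    push_cast
    rw [abs_of_nonneg (by linarith)]
    ring
  have a2 : |((1 - (2 * (k : ℤ) + 2) : ℤ) : ℝ)| = 2 * k + 1 := by
    push_cast
    rw [abs_of_nonpos (by linarith)]
    ring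
  rw [a1, a2, hlk]
  have b0 : ((X + Y) / 2) ^ 2 ≤ (X ^ 2 + Y ^ 2) / 2 := by nlinarith [sq_nonneg (X - Y)]
  have b1 : ((2 * (k : ℝ) + 2) ^ 2 - 1) ≤ c * (2 * k + 1) ^ 2 := by
    have : (2 * (k : ℝ) + 2) ^ 2 - 1 = (2 * k + 3) * (2 * k + 1) := by ring
    rw [this]
    have h3 : (2 * (k : ℝ) + 3) ≤ c * (2 * k + 1) := by
      rw [hc, div_mul_eq_mul_div, le_div_iff₀ hl]
      nlinarith
    nlinarith
  have b2 : ((2 * (k : ℝ) + 2) ^ 2 - 1) ≤ c * (2 * k + 3) ^ 2 := by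
    have : (2 * (k : ℝ) + 2) ^ 2 - 1 ≤ (2 * k + 3) ^ 2 := by nlinarith
    nlinarith [sq_nonneg (2 * (k : ℝ) + 3)]
  have b3 : 0 ≤ (2 * (k : ℝ) + 2) ^ 2 - 1 := by nlinarith
  calc ((2 * (k : ℝ) + 2) ^ 2 - 1) * ((X + Y) / 2) ^ 2
      ≤ ((2 * (k : ℝ) + 2) ^ 2 - 1) * ((X ^ 2 + Y ^ 2) / 2) := mul_le_mul_of_nonneg_left b0 b3
    _ = (((2 * (k : ℝ) + 2) ^ 2 - 1) * X ^ 2 + ((2 * (k : ℝ) + 2) ^ 2 - 1) * Y ^ 2) / 2 := by ring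
    _ ≤ (c * (2 * k + 3) ^ 2 * X ^ 2 + c * (2 * k + 1) ^ 2 * Y ^ 2) / 2 := by
        have := mul_le_mul_of_nonneg_right b2 (sq_nonneg X)
        have := mul_le_mul_of_nonneg_right b1 (sq_nonneg Y)
        linarith
    _ = c / 2 * (((2 * k + 3) * X) ^ 2 + ((2 * k + 1) * Y) ^ 2) := by ring

/-- one row of one family -/
theorem wF_le (Θ Θ' : ℝ → ℝ) (M : ℕ) (a : ℤ → ℂ) (k : ℕ) : Real.sqrt (lk k ^ 2 - 1) * ‖wF Θ Θ' M a (2 * k + 2)‖ ≤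
    ∑ n ∈ Finset.Icc (-(M : ℤ)) M, ‖a n‖ * ym Θ Θ' n k := by
  unfold wF ym
  rw [norm_mul]
  have hn : ‖(-(1 / 2) : ℂ)‖ = 1 / 2 := by norm_num
  rw [hn]
  have h1 := norm_sum_le (Finset.Icc (-(M : ℤ)) M)
    (fun n => a n * Rn Θ Θ' n (2 * (k : ℤ) + 2 + 1) + (starRingEnd ℂ) (a n * Rn Θ Θ' n (1 - (2 * (k : ℤ) + 2))))
  have h2 : ∑ n ∈ Finset.Icc (-(M : ℤ)) M,
      ‖a n * Rn Θ Θ' n (2 * (k : ℤ) + 2 + 1) + (starRingEnd ℂ) (a n * Rn Θ Θ' n (1 - (2 * (k : ℤ) + 2)))‖ ≤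
      ∑ n ∈ Finset.Icc (-(M : ℤ)) M, ‖a n‖ * (‖Rn Θ Θ' n (2 * k + 2 + 1)‖ + ‖Rn Θ Θ' n (1 - (2 * k + 2))‖) := by
    refine Finset.sum_le_sum fun n _ => ?_
    refine (norm_add_le _ _).trans ?_
    rw [Complex.norm_conj, norm_mul, norm_mul, mul_add]
  have h3 := mul_le_mul_of_nonneg_left (h1.trans h2)
    (mul_nonneg (Real.sqrt_nonneg (lk k ^ 2 - 1)) (by norm_num : (0 : ℝ) ≤ 1 / 2))
  rw [mul_assoc] at h3
  refine h3.trans (le_of_eq ?_)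
  rw [Finset.mul_sum]
  exact Finset.sum_congr rfl fun n _ => by ring

variable {Θ1 Θ1' Θ2 Θ2' : ℝ → ℝ}

/-- **THE TAIL OF THE ROWS**, finite sums -/
theorem PT_fin {l1 M : ℕ} {a1 a2 : ℤ → ℂ} {δ1 δ2 : ℤ → ℝ}
    (h1 : ∀ n ∈ Finset.Icc (-(M : ℤ)) M, TD Θ1 Θ1' l1 n (δ1 n))
    (h2 : ∀ n ∈ Finset.Icc (-(M : ℤ)) M, TD Θ2 Θ2' l1 n (δ2 n)) (S : Finset ℕ) (hS : ∀ k ∈ S, l1 ≤ 2 * k) :
    ∑ k ∈ S, (lk k ^ 2 - 1) * ‖wF Θ1 Θ1' M a1 (2 * k + 2) + wF Θ2 Θ2' M a2 (2 * k + 2)‖ ^ 2 ≤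
      ((l1 : ℝ) + 3) / (2 * (l1 + 1)) *
        (∑ n ∈ Finset.Icc (-(M : ℤ)) M, (‖a1 n‖ * δ1 n + ‖a2 n‖ * δ2 n)) ^ 2 := by
  have hc : (0 : ℝ) ≤ ((l1 : ℝ) + 3) / (2 * (l1 + 1)) := by positivity
  set c := ((l1 : ℝ) + 3) / (2 * (l1 + 1)) with hcd
  set q := Real.sqrt c with hq
  have hq2 : q ^ 2 = c := Real.sq_sqrt hc
  have hq0 : 0 ≤ q := Real.sqrt_nonneg _
  set I : Finset (Bool × ℤ) := Finset.univ ×ˢ Finset.Icc (-(M : ℤ)) M with hI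
  set x : Bool × ℤ → ℝ := fun p => cond p.1 ‖a1 p.2‖ ‖a2 p.2‖ with hx
  set d : Bool × ℤ → ℝ := fun p => q * cond p.1 (δ1 p.2) (δ2 p.2) with hd
  set y : Bool × ℤ → ℕ → ℝ := fun p k => cond p.1 (ym Θ1 Θ1' p.2 k) (ym Θ2 Θ2' p.2 k) with hy
  have hmem : ∀ p ∈ I, p.2 ∈ Finset.Icc (-(M : ℤ)) M := fun p hp => (Finset.mem_product.1 hp).2
  have m := mink S I x d y (fun p _ => by rcases p with ⟨_ | _, n⟩ <;> simp [hx])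
    (fun p hp => by
      have hp2 := hmem p hp
      rcases p with ⟨_ | _, n⟩
      · exact mul_nonneg hq0 (h2 n hp2).1
      · exact mul_nonneg hq0 (h1 n hp2).1)
    (fun p hp => by
      have hp2 := hmem p hp
      rcases p with ⟨_ | _, n⟩
      · have := ym_sum (h2 n hp2) S hS
        show ∑ k ∈ S, ym Θ2 Θ2' n k ^ 2 ≤ (q * δ2 n) ^ 2
        rw [mul_pow, hq2]
        exact this
      · have := ym_sum (h1 n hp2) S hS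
        show ∑ k ∈ S, ym Θ1 Θ1' n k ^ 2 ≤ (q * δ1 n) ^ 2
        rw [mul_pow, hq2]
        exact this)
  have e1 : ∀ (f g : ℤ → ℝ), ∑ p ∈ I, cond p.1 (f p.2) (g p.2) = ∑ n ∈ Finset.Icc (-(M : ℤ)) M, (f n + g n) := by
    intro f g
    rw [hI, Finset.sum_product, Fintype.sum_bool, ← Finset.sum_add_distrib]
    rfl
  have e2 : ∑ p ∈ I, x p * d p = q * ∑ n ∈ Finset.Icc (-(M : ℤ)) M, (‖a1 n‖ * δ1 n + ‖a2 n‖ * δ2 n) := by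
    rw [← e1 (fun n => ‖a1 n‖ * δ1 n) (fun n => ‖a2 n‖ * δ2 n), Finset.mul_sum]
    refine Finset.sum_congr rfl fun p _ => ?_
    rcases p with ⟨_ | _, n⟩
    · show ‖a2 n‖ * (q * δ2 n) = q * (‖a2 n‖ * δ2 n)
      ring
    · show ‖a1 n‖ * (q * δ1 n) = q * (‖a1 n‖ * δ1 n)
      ring
  rw [e2, mul_pow, hq2] at m
  refine le_trans (Finset.sum_le_sum fun k _ => ?_) m
  have e3 : ∑ p ∈ I, x p * y p k = ∑ n ∈ Finset.Icc (-(M : ℤ)) M, (‖a1 n‖ * ym Θ1 Θ1' n k + ‖a2 n‖ * ym Θ2 Θ2' n k) := by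
    rw [← e1 (fun n => ‖a1 n‖ * ym Θ1 Θ1' n k) (fun n => ‖a2 n‖ * ym Θ2 Θ2' n k)]
    refine Finset.sum_congr rfl fun p _ => ?_
    rcases p with ⟨_ | _, n⟩ <;> rfl
  rw [e3, Finset.sum_add_distrib]
  have w1 := wF_le Θ1 Θ1' M a1 k
  have w2 := wF_le Θ2 Θ2' M a2 k
  have w3 := mul_le_mul_of_nonneg_left (norm_add_le (wF Θ1 Θ1' M a1 (2 * k + 2)) (wF Θ2 Θ2' M a2 (2 * k + 2)))
    (Real.sqrt_nonneg (lk k ^ 2 - 1))
  rw [mul_add] at w3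
  have w4 := w3.trans (add_le_add w1 w2)
  have w5 := pow_le_pow_left₀ (mul_nonneg (Real.sqrt_nonneg _) (norm_nonneg _)) w4 2
  rw [mul_pow, Real.sq_sqrt (lk_sq k).le] at w5
  exact w5

/-- **THE TAIL OF THE ROWS** -/
theorem PT_abs {l1 k1 M : ℕ} (hk : l1 ≤ 2 * k1) {a1 a2 : ℤ → ℂ} {δ1 δ2 : ℤ → ℝ}
    (h1 : ∀ n ∈ Finset.Icc (-(M : ℤ)) M, TD Θ1 Θ1' l1 n (δ1 n))
    (h2 : ∀ n ∈ Finset.Icc (-(M : ℤ)) M, TD Θ2 Θ2' l1 n (δ2 n)) :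
    ∑' k : ℕ, (lk (k + k1) ^ 2 - 1) * ‖wF Θ1 Θ1' M a1 (2 * (k + k1 : ℕ) + 2) + wF Θ2 Θ2' M a2 (2 * (k + k1 : ℕ) + 2)‖ ^ 2 ≤
      ((l1 : ℝ) + 3) / (2 * (l1 + 1)) *
        (∑ n ∈ Finset.Icc (-(M : ℤ)) M, (‖a1 n‖ * δ1 n + ‖a2 n‖ * δ2 n)) ^ 2 := by
  refine Real.tsum_le_of_sum_range_le (fun k => mul_nonneg (lk_sq _).le (sq_nonneg _)) fun n => ?_
  have := PT_fin h1 h2 (a1 := a1) (a2 := a2) ((Finset.range n).map (addRightEmbedding k1)) (fun k hk' => by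
    rw [Finset.mem_map] at hk'
    obtain ⟨j, _, rfl⟩ := hk'
    show l1 ≤ 2 * (j + k1)
    omega)
  rw [Finset.sum_map] at this
  exact this

end Pool.Agent.Helper57.SH
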