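import Pool.Agent.Helper57.SH.PT1
import Pool.Agent.Helper76.SH.PT

/-!
# Project RC, SHARP, cell engine: the tail norm of the modes from the table of `e^{-i n D}`

`okM1`: the kernel check of one mode; `TD_one`: its soundness; `okMs`, `TD_tab`: the modes `1, 2, …` of a table.
The numbers `e n` have the unit `1 / (2 ^ s * 2 Q)`.
-/

set_option autoImplicit false

open MeasureTheory Set Filter Topology

namespace Pool.Agent.Helper57.SH

open Helper49.LT (ee ee_zero ee_add norm_ee continuous_ee)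
open Helper95.SH (Rn En wF)
open Helper41.SH (IA inv)
open Helper56.RC (fc)
open Helper87.RC (BM fc_sub fc_cmul)
open Helper54.RC.Fast (FP PF AP V cc dg len len_eq wf nrF mulF okm mulF_sound)
open Helper76.RC.TPoly Helper76.RC.TrD
open Helper76.SH (gT Rn_gT sum_mul_le mink2 thF okTh thF_sound okC len_der bif_iff)
open Helper30.SH (cf fc_V bm_V sum_sq_le)

/-! ### sums of squares of digits -/

/-- the square of the distance -/
def sqd (d B : ℕ) : ℕ := Nat.add (Nat.mul (Nat.sub d B) (Nat.sub d B)) (Nat.mul (Nat.sub B d) (Nat.sub B d))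

theorem sqd_eq (d B : ℕ) : ((sqd d B : ℕ) : ℝ) = ((d : ℝ) - B) ^ 2 := by
  have e : sqd d B = (d - B) * (d - B) + (B - d) * (B - d) := rfl
  rw [e]
  rcases le_total d B with h | h
  · rw [Nat.sub_eq_zero_of_le h]
    push_cast [Nat.cast_sub h]
    ring
  · rw [Nat.sub_eq_zero_of_le h]
    push_cast [Nat.cast_sub h]
    ring

/-- the squares of the digits `lo, …, lo + n - 1` -/
def sqS (b X lo : ℕ) : ℕ → ℕ
  | 0 => 0
  | n + 1 => Nat.add (sqS b X lo n) (sqd (dg b (Nat.add lo n) X) (Nat.pow 2 b))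

theorem sqS_eq (b X lo n : ℕ) : ((sqS b X lo n : ℕ) : ℝ) = ∑ i ∈ Finset.range n, ((dg b (lo + i) X : ℝ) - 2 ^ b) ^ 2 := by
  induction n with
  | zero => simp [sqS]
  | succ n ih =>
    have e : sqS b X lo (n + 1) = sqS b X lo n + sqd (dg b (lo + n) X) (2 ^ b) := rfl
    rw [e, Finset.sum_range_succ, Nat.cast_add, ih, sqd_eq]
    push_cast
    rfl

theorem norm_cc (b : ℕ) (z : FP) (k : ℕ) : ‖cc b z k‖ ^ 2 = ((dg b k z.x : ℝ) - 2 ^ b) ^ 2 + ((dg b k z.y : ℝ) - 2 ^ b) ^ 2 := by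
  unfold cc
  have e : ((dg b k z.x : ℂ) - 2 ^ b) + Complex.I * ((dg b k z.y : ℂ) - 2 ^ b) =
      ((((dg b k z.x : ℝ) - 2 ^ b : ℝ)) : ℂ) + Complex.I * ((((dg b k z.y : ℝ) - 2 ^ b : ℝ)) : ℂ) := by
    push_cast
    ring
  rw [e]
  generalize (dg b k z.x : ℝ) - 2 ^ b = u
  generalize (dg b k z.y : ℝ) - 2 ^ b = w
  rw [← Complex.normSq_eq_norm_sq, Complex.normSq_apply]
  simp
  ring

/-- the squares of the coefficients of `R e^{i n t}` with the frequencies beyond `m1` -/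
def tlS (b m1 n : ℕ) (R : FP) : ℕ :=
  Nat.add
    (Nat.add (sqS b R.x 0 (Nat.sub R.N (Nat.add m1 n)))
      (sqS b R.x (Nat.sub (len R.N) (Nat.sub (Nat.add R.N n) m1)) (Nat.sub (Nat.add R.N n) m1)))
    (Nat.add (sqS b R.y 0 (Nat.sub R.N (Nat.add m1 n)))
      (sqS b R.y (Nat.sub (len R.N) (Nat.sub (Nat.add R.N n) m1)) (Nat.sub (Nat.add R.N n) m1)))

theorem tlS_le (b m1 n : ℕ) (hn : n ≤ m1) (R : FP) (F : Finset ℤ) (hF : ∀ k ∈ F, (m1 : ℤ) < |k|) :
    ∑ k ∈ F, ‖cf b R (k - n)‖ ^ 2 ≤ ((tlS b m1 n R : ℕ) : ℝ) := by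
  classical
  set cl := R.N - (m1 + n) with hcl
  set ch := R.N + n - m1 with hch
  set st := (2 * R.N + 1) - ch with hst
  have e : tlS b m1 n R = (sqS b R.x 0 cl + sqS b R.x st ch) + (sqS b R.y 0 cl + sqS b R.y st ch) := rfl
  set I := Finset.range cl ∪ (Finset.range ch).image (fun i => st + i) with hI
  have h1 : ∑ i ∈ I, ‖cc b R i‖ ^ 2 ≤ ((tlS b m1 n R : ℕ) : ℝ) := by
    have h2 : ∑ i ∈ I, ‖cc b R i‖ ^ 2 ≤
        ∑ i ∈ Finset.range cl, ‖cc b R i‖ ^ 2 + ∑ i ∈ (Finset.range ch).image (fun i => st + i), ‖cc b R i‖ ^ 2 := by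
      rw [hI, ← Finset.sum_union_inter]
      have : 0 ≤ ∑ i ∈ Finset.range cl ∩ (Finset.range ch).image (fun i => st + i), ‖cc b R i‖ ^ 2 :=
        Finset.sum_nonneg fun _ _ => by positivity
      linarith
    refine h2.trans (le_of_eq ?_)
    rw [Finset.sum_image (fun a _ c _ h => by simpa using h), e]
    push_cast
    rw [sqS_eq, sqS_eq, sqS_eq, sqS_eq]
    simp_rw [norm_cc]
    rw [Finset.sum_add_distrib, Finset.sum_add_distrib]
    simp only [zero_add]
    ring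
  refine le_trans ?_ h1
  set F' := F.filter (fun k : ℤ => k - n ∈ Finset.Icc (-(R.N : ℤ)) R.N) with hF'
  have h3 : ∑ k ∈ F, ‖cf b R (k - n)‖ ^ 2 = ∑ k ∈ F', ‖cc b R (k - n + R.N).toNat‖ ^ 2 := by
    rw [hF', Finset.sum_filter]
    refine Finset.sum_congr rfl fun k _ => ?_
    unfold cf
    by_cases h : k - n ∈ Finset.Icc (-(R.N : ℤ)) R.N
    · rw [if_pos h, if_pos h]
    · rw [if_neg h, if_neg h, norm_zero]
      norm_num
  have hm : ∀ k ∈ F', (m1 : ℤ) < |k| ∧ -(R.N : ℤ) ≤ k - n ∧ k - n ≤ R.N := by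
    intro k hk
    obtain ⟨k1, k2⟩ := Finset.mem_filter.1 hk
    exact ⟨hF k k1, Finset.mem_Icc.1 k2⟩
  have hinj : Set.InjOn (fun k : ℤ => (k - n + R.N).toNat) F' := by
    intro a ha c hc h
    obtain ⟨-, a1, -⟩ := hm a ha
    obtain ⟨-, c1, -⟩ := hm c hc
    have h : (a - n + R.N).toNat = (c - n + R.N).toNat := h
    omega
  rw [h3, ← Finset.sum_image (f := fun i => ‖cc b R i‖ ^ 2) hinj]
  refine Finset.sum_le_sum_of_subset_of_nonneg ?_ fun _ _ _ => by positivity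
  intro i hi
  obtain ⟨k, hk, rfl⟩ := Finset.mem_image.1 hi
  obtain ⟨k1, k2, k3⟩ := hm k hk
  rw [hI, Finset.mem_union, Finset.mem_range, Finset.mem_image]
  rcases abs_cases k with ⟨h6, h7⟩ | ⟨h6, h7⟩
  · right
    refine ⟨(k - n + R.N).toNat - st, ?_, ?_⟩
    · rw [Finset.mem_range]
      omega
    · show st + ((k - n + R.N).toNat - st) = (k - n + R.N).toNat
      omega
  · left
    omega

/-! ### one mode -/

/-- the product of an approximation with `2 Q Θ'` -/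
def prM (b : ℕ) (θ : FP) (p : PF) : FP := mulF b p.z θ
/-- its error -/
def erM (b r : ℕ) (θ : FP) (p : PF) : ℕ := Nat.mul p.er (nrF b r θ)
/-- the check of the mode `n`; `R` is the product -/
def okM1 (b r m1 n e : ℕ) (θ : FP) (p : PF) (R : FP) : Bool :=
  bif okm b r p.z θ then
    bif Nat.ble n m1 then
      bif Nat.ble (erM b r θ p) e then
        Nat.ble (tlS b m1 n R) (Nat.mul (Nat.sub e (erM b r θ p)) (Nat.sub e (erM b r θ p)))
      else false
    else false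
  else false

theorem gT_tail (b r s e m1 n Q : ℕ) (l : List (ℤ × ℤ)) (hθ : okTh b r Q l = true) (p : PF)
    (hp : AP b s p (fun t => ee (-((n : ℝ) * Dt Q l t)))) (h : okM1 b r m1 n e (thF b Q l) p (prM b (thF b Q l) p) = true)
    (F : Finset ℤ) (hF : ∀ k ∈ F, (m1 : ℤ) < |k|) :
    ∑ k ∈ F, ‖fc (gT (Th Q l) (Th' Q l) n) k‖ ^ 2 ≤ ((e : ℝ) / (2 ^ s * (2 * Q))) ^ 2 := by
  obtain ⟨hr, hQ, w1, w2, w3⟩ := thF_sound b r Q l hθ
  unfold okM1 at h
  rw [bif_iff, bif_iff, bif_iff] at h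
  obtain ⟨h1, h2, h3, h4⟩ := h
  set θ := thF b Q l with hθd
  have h2 : n ≤ m1 := Nat.le_of_ble_eq_true h2
  have h3 : erM b r θ p ≤ e := Nat.le_of_ble_eq_true h3
  have h4 : tlS b m1 n (prM b θ p) ≤ (e - erM b r θ p) * (e - erM b r θ p) := Nat.le_of_ble_eq_true h4
  obtain ⟨p1, p2⟩ := hp
  obtain ⟨m1', m2⟩ := mulF_sound b r hr p.z θ p1 w1 h1
  set f : ℝ → ℂ := fun t => ee (-((n : ℝ) * Dt Q l t)) * (Th' Q l t : ℂ) with hf
  have hQr : (0 : ℝ) < Q := by exact_mod_cast hQ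
  set c : ℝ := 2 ^ s * (2 * Q) with hc
  have hc0 : 0 < c := by positivity
  obtain ⟨Cθ, hCθ⟩ := bm_V b θ
  obtain ⟨CR, hCR⟩ := bm_V b (prM b θ p)
  have hθn : ∀ t, ‖V b θ t‖ ≤ nrF b r θ := fun t => Helper54.RC.Fast.norm_V_le b r hr θ t
  have hcD := continuous_Dt Q l
  have hee : BM (fun t => ee (-((n : ℝ) * Dt Q l t))) 1 :=
    ⟨continuous_ee.measurable.comp ((continuous_const.mul hcD).neg).measurable, fun t => by rw [norm_ee]⟩
  have hT' : ∀ t, (Th' Q l t : ℂ) = (1 / (2 * Q) : ℂ) * V b θ t := by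
    intro t
    rw [w3]
    have : (Q : ℂ) ≠ 0 := by exact_mod_cast hQ.ne'
    push_cast
    field_simp
  have hTB : BM (fun t => (Th' Q l t : ℂ)) (‖(1 / (2 * Q) : ℂ)‖ * Cθ) := by
    simp_rw [hT']
    exact hCθ.cmul _
  have hfB := hee.mul hTB
  have hE : ∀ t, ‖(c : ℂ) * f t - V b (prM b θ p) t‖ ≤ (erM b r θ p : ℕ) := by
    intro t
    have e1 : V b (prM b θ p) t = V b p.z t * V b θ t := m2 t
    have e2 : (c : ℂ) * f t - V b (prM b θ p) t =
        -(V b p.z t - (2 ^ s : ℂ) * ee (-((n : ℝ) * Dt Q l t))) * V b θ t := by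
      rw [e1, hf, hc]
      simp only
      rw [w3]
      push_cast
      ring
    rw [e2, norm_mul, norm_neg]
    have e3 : erM b r θ p = p.er * nrF b r θ := rfl
    rw [e3]
    push_cast
    exact mul_le_mul (p2 t) (hθn t) (norm_nonneg _) (Nat.cast_nonneg _)
  have hd : BM (fun t => (c : ℂ) * f t - V b (prM b θ p) t) (erM b r θ p : ℕ) := ⟨(hfB.m.const_mul _).sub hCR.m, hE⟩
  have hfc : ∀ k, fc (gT (Th Q l) (Th' Q l) n) k = fc f (k - n) := by
    intro k
    rw [← Helper87.RC.fc_ee f n k]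
    congr 1
    funext x
    simp only [gT, hf, Th]
    rw [← mul_assoc, ← ee_add, mul_comm]
    congr 2
    push_cast
    ring
  have s1 : ∑ k ∈ F, ‖cf b (prM b θ p) (k - n)‖ ^ 2 ≤ ((e : ℝ) - (erM b r θ p : ℕ)) ^ 2 := by
    refine (tlS_le b m1 n h2 (prM b θ p) F hF).trans ?_
    have h5 : ((tlS b m1 n (prM b θ p) : ℕ) : ℝ) ≤ (((e - erM b r θ p) * (e - erM b r θ p) : ℕ) : ℝ) := by
      exact_mod_cast h4
    refine h5.trans (le_of_eq ?_)
    rw [Nat.cast_mul, Nat.cast_sub h3]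
    ring
  have s2 : ∑ k ∈ F, ‖fc (fun t => (c : ℂ) * f t - V b (prM b θ p) t) (k - n)‖ ^ 2 ≤ ((erM b r θ p : ℕ) : ℝ) ^ 2 := by
    have := sum_sq_le hd (F.image fun k => k - (n : ℤ))
    rw [Finset.sum_image (fun a _ c _ h => by simpa using h)] at this
    exact this
  have h3' : ((erM b r θ p : ℕ) : ℝ) ≤ e := by exact_mod_cast h3
  have s3 := mink2 F (fun k => ‖cf b (prM b θ p) (k - n)‖)
    (fun k => ‖fc (fun t => (c : ℂ) * f t - V b (prM b θ p) t) (k - n)‖) (by linarith : (0 : ℝ) ≤ e - (erM b r θ p : ℕ))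
    (Nat.cast_nonneg _) s1 s2
  rw [sub_add_cancel] at s3
  rw [div_pow, le_div_iff₀ (by positivity), Finset.sum_mul]
  refine le_trans (Finset.sum_le_sum fun k _ => ?_) s3
  rw [hfc]
  have e4 : (c : ℂ) * fc f (k - n) = cf b (prM b θ p) (k - n) +
      fc (fun t => (c : ℂ) * f t - V b (prM b θ p) t) (k - n) := by
    rw [fc_sub (hfB.cmul _) hCR, fc_cmul, fc_V]
    ring
  have e5 : ‖fc f (k - n)‖ ^ 2 * c ^ 2 = ‖(c : ℂ) * fc f (k - n)‖ ^ 2 := by
    rw [norm_mul, Complex.norm_real, Real.norm_eq_abs, abs_of_pos hc0]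
    ring
  rw [e5, e4]
  exact pow_le_pow_left₀ (norm_nonneg _) (norm_add_le _ _) 2

theorem TD_of {Θ Θ' : ℝ → ℝ} (hI : IA Θ Θ') {m1 : ℕ} {n : ℤ} {δ : ℝ} (hδ : 0 ≤ δ)
    (h : ∀ F : Finset ℤ, (∀ k ∈ F, (m1 : ℤ) < |k|) → ∑ k ∈ F, ‖fc (gT Θ Θ' n) k‖ ^ 2 ≤ δ ^ 2) : TD Θ Θ' m1 n δ := by
  refine ⟨hδ, fun S hS => le_trans (le_of_eq ?_) (h S hS)⟩
  refine Finset.sum_congr rfl fun k hk => ?_
  have hk0 : k ≠ 0 := by
    intro h0
    have h1 := hS k hk
    rw [h0, abs_zero] at h1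
    omega
  have hkc : (k : ℂ) ≠ 0 := by exact_mod_cast hk0
  rw [Rn_gT hI n hk0, mul_div_cancel₀ _ hkc]

/-! ### all modes of a table -/

/-- all checks; `E` is the packed sequence of the numbers `e n`, `n` is the frequency of the first polynomial -/
def okMs (b r m1 bE E : ℕ) (θ : FP) : ℕ → List PF → Bool
  | _, [] => true
  | n, p :: ps =>
    bif okM1 b r m1 n (dg bE n E) θ p (prM b θ p) then okMs b r m1 bE E θ (Nat.succ n) ps else false

theorem okMs_get (b r m1 bE E : ℕ) (θ : FP) (ps : List PF) (n : ℕ) (h : okMs b r m1 bE E θ n ps = true)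
    (k : ℕ) (p : PF) (hp : ps[k]? = some p) : okM1 b r m1 (n + k) (dg bE (n + k) E) θ p (prM b θ p) = true := by
  induction ps generalizing n k with
  | nil => simp at hp
  | cons q ps ih =>
    unfold okMs at h
    rw [bif_iff] at h
    cases k with
    | zero =>
      simp only [List.getElem?_cons_zero, Option.some.injEq] at hp
      subst hp
      exact h.1
    | succ k =>
      rw [List.getElem?_cons_succ] at hp
      have := ih (Nat.succ n) h.2 k hp
      have e : Nat.succ n + k = n + (k + 1) := by omega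
      rw [e] at this
      exact this

/-- the whole check for the table `ps` of `e^{-i m D}`, `m = 1, 2, ..` -/
def okTD (b r m1 Q bE E : ℕ) (l : List (ℤ × ℤ)) (ps : List PF) : Bool :=
  bif okTh b r Q l then
    bif Nat.ble l.length m1 then okMs b r m1 bE E (thF b Q l) 1 ps else false
  else false

/-- **the tail norms of the modes** -/
theorem TD_tab (b r s m1 Q bE E : ℕ) (l : List (ℤ × ℤ)) (ps : List PF) (hI : IA (Th Q l) (Th' Q l))
    (hps : ∀ (k : ℕ) (p : PF), ps[k]? = some p → AP b s p (fun t => ee (-(((1 + k : ℕ) : ℝ) * Dt Q l t))))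
    (h : okTD b r m1 Q bE E l ps = true) (n : ℕ) (hn : n ≤ ps.length) :
    TD (Th Q l) (Th' Q l) m1 n ((dg bE n E : ℕ) / (2 ^ s * (2 * Q))) := by
  unfold okTD at h
  rw [bif_iff, bif_iff] at h
  obtain ⟨h1, h2, h3⟩ := h
  have h2 : l.length ≤ m1 := Nat.le_of_ble_eq_true h2
  obtain ⟨hr, hQ, w1, w2, w3⟩ := thF_sound b r Q l h1
  refine TD_of hI (by positivity) fun F hF => ?_
  rcases Nat.eq_zero_or_pos n with rfl | hn0
  · have e0 : ∀ k ∈ F, ‖fc (gT (Th Q l) (Th' Q l) ((0 : ℕ) : ℤ)) k‖ ^ 2 = 0 := by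
      intro k hk
      have e1 : gT (Th Q l) (Th' Q l) ((0 : ℕ) : ℤ) = fun t => (1 / (2 * Q) : ℂ) * V b (thF b Q l) t := by
        funext t
        rw [w3]
        unfold gT
        have hQ1 : (Q : ℂ) ≠ 0 := by exact_mod_cast hQ.ne'
        push_cast
        rw [zero_mul, ee_zero]
        field_simp
      rw [e1, fc_cmul, fc_V]
      unfold cf
      have hN : (thF b Q l).N = l.length := by
        show (der 1 l).length = l.length
        exact len_der 1 l
      rw [if_neg ?_, mul_zero, norm_zero]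
      · norm_num
      · rw [Finset.mem_Icc, hN]
        have := hF k hk
        rcases abs_cases k with ⟨h6, -⟩ | ⟨h6, -⟩ <;> omega
    rw [Finset.sum_eq_zero e0]
    positivity
  · obtain ⟨k, rfl⟩ : ∃ k, n = 1 + k := ⟨n - 1, by omega⟩
    have hk : k < ps.length := by omega
    have e1 : ps[k]? = some ps[k] := List.getElem?_eq_getElem hk
    have h4 := okMs_get b r m1 bE E _ ps 1 h3 k ps[k] e1
    exact gT_tail b r s _ m1 (1 + k) Q l h1 ps[k] (hps k _ e1) h4 F hF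

end Pool.Agent.Helper57.SH
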