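import Pool.Agent.Helper57.SH.PT2
import Pool.Agent.Helper76.SH.PTM
import Pool.Agent.Helper20.SH.NFX

/-!
# Project RC, SHARP, cell engine: the tail of the rows of (D2) in the coordinates, diagonal form

`CB x S Q`: `x² ≤ S Q` (Cauchy–Schwarz data). `fam_le`: the families against weights. `PTc`: the bound of
`∑ ‖C n‖ δ n` squared by a diagonal form in the coordinates with the natural numbers `tauN`.
-/

set_option autoImplicit false

open MeasureTheory Set Filter Topology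

namespace Pool.Agent.Helper57.SH

open Helper49.LT hiding sg
open Helper49.RC (om)
open Helper95.RC
open Helper49.Sharp
open Helper95.SH
open Helper41.SH (IA inv)
open Helper56.RC (fc)
open Pool.Agent.Helper20.RC (lk lk_ge lk_sq)
open Pool.Agent.Helper20.SH (d0 d0_sup wc_wm C1_norm C2_norm win_shiftR nsq_kq)
open Helper54.RC.Fast (dg)

/-! ### Cauchy–Schwarz data -/

/-- `x² ≤ S Q` with nonnegative numbers -/
def CB (x S Q : ℝ) : Prop := 0 ≤ x ∧ 0 ≤ S ∧ 0 ≤ Q ∧ x ^ 2 ≤ S * Q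

theorem CB.add {x S Q y T R : ℝ} (h : CB x S Q) (k : CB y T R) : CB (x + y) (S + T) (Q + R) := by
  obtain ⟨h1, h2, h3, h4⟩ := h
  obtain ⟨k1, k2, k3, k4⟩ := k
  refine ⟨by positivity, by positivity, by positivity, ?_⟩
  have h5 : (x * y) ^ 2 ≤ ((S * R + T * Q) / 2) ^ 2 := by
    have a1 : (x * y) ^ 2 ≤ (S * Q) * (T * R) := by
      rw [mul_pow]
      exact mul_le_mul h4 k4 (sq_nonneg _) (by positivity)
    nlinarith [sq_nonneg (S * R - T * Q)]
  have h6 : x * y ≤ (S * R + T * Q) / 2 := (abs_le_of_sq_le_sq' h5 (by positivity)).2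
  nlinarith

theorem CB.smul {x S Q a : ℝ} (ha : 0 ≤ a) (h : CB x S Q) : CB (a * x) (a * S) (a * Q) := by
  obtain ⟨h1, h2, h3, h4⟩ := h
  refine ⟨by positivity, by positivity, by positivity, ?_⟩
  have := mul_le_mul_of_nonneg_left h4 (mul_nonneg ha ha)
  nlinarith

theorem CB.sum {ι : Type*} (I : Finset ι) (a x : ι → ℝ) (ha : ∀ i ∈ I, 0 ≤ a i) (hx : ∀ i ∈ I, 0 ≤ x i) :
    CB (∑ i ∈ I, x i * a i) (∑ i ∈ I, a i) (∑ i ∈ I, a i * x i ^ 2) := by
  refine ⟨Finset.sum_nonneg fun i hi => mul_nonneg (hx i hi) (ha i hi), Finset.sum_nonneg ha,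
    Finset.sum_nonneg fun i hi => mul_nonneg (ha i hi) (sq_nonneg _), ?_⟩
  have h := Finset.sum_mul_sq_le_sq_mul_sq I (fun i => Real.sqrt (a i)) (fun i => Real.sqrt (a i) * x i)
  have e1 : ∑ i ∈ I, Real.sqrt (a i) * (Real.sqrt (a i) * x i) = ∑ i ∈ I, x i * a i :=
    Finset.sum_congr rfl fun i hi => by rw [← mul_assoc, Real.mul_self_sqrt (ha i hi), mul_comm]
  have e2 : ∑ i ∈ I, Real.sqrt (a i) ^ 2 = ∑ i ∈ I, a i :=
    Finset.sum_congr rfl fun i hi => Real.sq_sqrt (ha i hi)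
  have e3 : ∑ i ∈ I, (Real.sqrt (a i) * x i) ^ 2 = ∑ i ∈ I, a i * x i ^ 2 :=
    Finset.sum_congr rfl fun i hi => by rw [mul_pow, Real.sq_sqrt (ha i hi)]
  rw [e1, e2, e3] at h
  exact h

theorem CB.mono {x x' S S' Q Q' : ℝ} (h : CB x' S Q) (h0 : 0 ≤ x) (hx : x ≤ x') (hS : S ≤ S') (hQ : Q ≤ Q') :
    CB x S' Q' := by
  obtain ⟨h1, h2, h3, h4⟩ := h
  refine ⟨h0, h2.trans hS, h3.trans hQ, (pow_le_pow_left₀ h0 hx 2).trans (h4.trans ?_)⟩
  exact mul_le_mul hS hQ h3 (h2.trans hS)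

/-! ### pairs of coordinates -/

/-- the indices of `s` -/
noncomputable def Is (K : ℕ) : Finset ℤ := (Finset.Icc (-(K : ℤ)) K).filter (fun n => ¬ Even n)
/-- the positive indices of `p`, `r` -/
noncomputable def Ih (L : ℕ) : Finset ℤ := (Finset.Icc (1 : ℤ) L).filter Even

theorem pair_s (K : ℕ) (w : ℕ → ℝ) (hw : ∀ i, 0 ≤ w i) :
    ∑ n ∈ Is K, (w (1 + (n + K).toNat) + w (2 + (n + K).toNat)) ≤ ∑ i ∈ Finset.Ico 1 (bp K), w i := by
  have hm : ∀ n ∈ Is K, ¬ Even n ∧ -(K : ℤ) ≤ n ∧ n ≤ K := by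
    intro n hn
    have h := Finset.mem_filter.1 hn
    exact ⟨h.2, Finset.mem_Icc.1 h.1⟩
  refine Helper76.SH.two_inj (Is K) (fun n => 1 + (n + K).toNat) (fun n => 2 + (n + K).toNat) _ ?_ ?_ ?_ ?_ ?_ w hw
  · intro a ha c hc h
    have h1 := hm a ha
    have h2 := hm c hc
    have h3 : 1 + (a + K).toNat = 1 + (c + K).toNat := h
    omega
  · intro a ha c hc h
    have h1 := hm a ha
    have h2 := hm c hc
    have h3 : 2 + (a + K).toNat = 2 + (c + K).toNat := h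
    omega
  · intro a ha c hc h
    obtain ⟨h1, h1', h1''⟩ := hm a ha
    obtain ⟨h2, h2', h2''⟩ := hm c hc
    rw [Int.not_even_iff_odd] at h1 h2
    obtain ⟨x, hx⟩ := h1
    obtain ⟨y, hy⟩ := h2
    have h3 : 1 + (a + K).toNat = 2 + (c + K).toNat := h
    omega
  · intro a ha
    have h1 := hm a ha
    rw [Finset.mem_Ico]
    show _ ∧ 1 + (a + K).toNat < bp K
    unfold bp
    omega
  · intro a ha
    have h1 := hm a ha
    rw [Finset.mem_Ico]
    show _ ∧ 2 + (a + K).toNat < bp K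
    unfold bp
    omega

theorem pair_h (L base : ℕ) (w : ℕ → ℝ) (hw : ∀ i, 0 ≤ w i) :
    w base + ∑ n ∈ Ih L, (w (base + (n.toNat - 1)) + w (base + n.toNat)) ≤
      ∑ i ∈ Finset.Ico base (base + (L + 1)), w i := by
  have hm : ∀ n ∈ Ih L, Even n ∧ 1 ≤ n ∧ n ≤ L := by
    intro n hn
    have h := Finset.mem_filter.1 hn
    exact ⟨h.2, Finset.mem_Icc.1 h.1⟩
  have e3 : ∑ n ∈ Ih L, (w (base + (n.toNat - 1)) + w (base + n.toNat)) ≤
      ∑ i ∈ Finset.Ico (base + 1) (base + (L + 1)), w i := by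
    refine Helper76.SH.two_inj (Ih L) (fun n => base + (n.toNat - 1)) (fun n => base + n.toNat) _ ?_ ?_ ?_ ?_ ?_ w hw
    · intro a ha c hc h
      have h1 := hm a ha
      have h2 := hm c hc
      have h3 : base + (a.toNat - 1) = base + (c.toNat - 1) := h
      omega
    · intro a ha c hc h
      have h1 := hm a ha
      have h2 := hm c hc
      have h3 : base + a.toNat = base + c.toNat := h
      omega
    · intro a ha c hc h
      obtain ⟨⟨x, hx⟩, h1', h1''⟩ := hm a ha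
      obtain ⟨⟨y, hy⟩, h2', h2''⟩ := hm c hc
      have h3 : base + (a.toNat - 1) = base + c.toNat := h
      omega
    · intro a ha
      obtain ⟨⟨x, hx⟩, h1', h1''⟩ := hm a ha
      rw [Finset.mem_Ico]
      show _ ∧ base + (a.toNat - 1) < _
      omega
    · intro a ha
      obtain ⟨⟨x, hx⟩, h1', h1''⟩ := hm a ha
      rw [Finset.mem_Ico]
      show _ ∧ base + a.toNat < _
      omega
  rw [Finset.sum_eq_sum_Ico_succ_bot (by omega : base < base + (L + 1))]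
  linarith

/-! ### the sums over the arrays -/

theorem sum_s (K M : ℕ) (hKM : K ≤ M) (v : ℕ → ℝ) (A : ℤ → ℝ) :
    ∑ n ∈ Finset.Icc (-(M : ℤ)) M, ‖sV K v n‖ * A n = ∑ n ∈ Is K, ‖sV K v n‖ * A n := by
  symm
  refine Finset.sum_subset ?_ ?_
  · intro n hn
    have h := Finset.mem_Icc.1 (Finset.mem_filter.1 hn).1
    rw [Finset.mem_Icc]
    omega
  · intro n _ hn
    have : sV K v n = 0 := by
      by_cases h1 : Even n
      · exact sV_even K v n h1
      · refine sV_sup K v n fun h2 => hn ?_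
        exact Finset.mem_filter.2 ⟨h2, h1⟩
    rw [this, norm_zero, zero_mul]

theorem sum_h (L M base : ℕ) (hLM : L ≤ M) (v : ℕ → ℝ) (A : ℤ → ℝ) :
    ∑ n ∈ Finset.Icc (-(M : ℤ)) M, ‖hV L base v n‖ * A n =
      ‖hV L base v 0‖ * A 0 + ∑ n ∈ Ih L, ‖hV L base v n‖ * (A n + A (-n)) := by
  classical
  have hsplit : Finset.Icc (-(M : ℤ)) M = insert 0 (Finset.Icc (1 : ℤ) M ∪ (Finset.Icc (1 : ℤ) M).image (fun n => -n)) := by
    ext n
    simp only [Finset.mem_insert, Finset.mem_union, Finset.mem_image, Finset.mem_Icc]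
    constructor
    · intro h
      rcases lt_trichotomy n 0 with h0 | h0 | h0
      · right; right
        exact ⟨-n, by omega, by omega⟩
      · left; exact h0
      · right; left; omega
    · rintro (h | h | ⟨a, h, h'⟩) <;> omega
  have h0 : (0 : ℤ) ∉ Finset.Icc (1 : ℤ) M ∪ (Finset.Icc (1 : ℤ) M).image (fun n => -n) := by
    simp only [Finset.mem_union, Finset.mem_image, Finset.mem_Icc]
    rintro (h | ⟨a, h, h'⟩) <;> omega
  have hdis : Disjoint (Finset.Icc (1 : ℤ) M) ((Finset.Icc (1 : ℤ) M).image (fun n => -n)) := by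
    rw [Finset.disjoint_left]
    intro n h1 h2
    obtain ⟨a, ha, rfl⟩ := Finset.mem_image.1 h2
    rw [Finset.mem_Icc] at h1 ha
    omega
  rw [hsplit, Finset.sum_insert h0, Finset.sum_union hdis, Finset.sum_image (fun a _ c _ h => by simpa using h)]
  have e1 : ∀ n, ‖hV L base v (-n)‖ = ‖hV L base v n‖ := fun n => by rw [hV_neg, RCLike.norm_conj]
  simp_rw [e1]
  rw [← Finset.sum_add_distrib]
  congr 1
  symm
  have e2 : ∀ n, ‖hV L base v n‖ * A n + ‖hV L base v n‖ * A (-n) = ‖hV L base v n‖ * (A n + A (-n)) :=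
    fun n => by ring
  simp_rw [e2]
  refine Finset.sum_subset ?_ ?_
  · intro n hn
    have h := Finset.mem_Icc.1 (Finset.mem_filter.1 hn).1
    rw [Finset.mem_Icc]
    omega
  · intro n hn1 hn
    have : hV L base v n = 0 := by
      by_cases h1 : Even n
      · refine hV_sup L base v n fun h2 => hn ?_
        rw [Finset.mem_Icc] at h2 hn1
        exact Finset.mem_filter.2 ⟨Finset.mem_Icc.2 ⟨hn1.1, h2.2⟩, h1⟩
      · exact hV_odd L base v n h1
    rw [this, norm_zero, zero_mul]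

theorem nsq_s {K : ℕ} (v : ℕ → ℝ) {n : ℤ} (hn : n ∈ Is K) :
    ‖sV K v n‖ ^ 2 = v (1 + (n + K).toNat) ^ 2 + v (2 + (n + K).toNat) ^ 2 := by
  have h := Finset.mem_filter.1 hn
  unfold sV
  rw [if_neg (by push Not; exact ⟨h.2, h.1⟩), Helper76.SH.nsq_re_im]

theorem nsq_h {L base : ℕ} (v : ℕ → ℝ) {n : ℤ} (hn : n ∈ Ih L) :
    ‖hV L base v n‖ ^ 2 = v (base + (n.toNat - 1)) ^ 2 + v (base + n.toNat) ^ 2 := by
  have h := Finset.mem_filter.1 hn
  have h1 := Finset.mem_Icc.1 h.1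
  unfold hV
  rw [if_neg (by push Not; exact ⟨h.2, by rw [Finset.mem_Icc]; omega⟩), if_neg (by omega), if_pos (by omega),
    Helper76.SH.nsq_re_im]

theorem nsq_h0 (L base : ℕ) (v : ℕ → ℝ) : ‖hV L base v 0‖ ^ 2 = v base ^ 2 := by
  unfold hV
  rw [if_neg (by push Not; exact ⟨Even.zero, by rw [Finset.mem_Icc]; omega⟩), if_pos rfl, Complex.norm_real,
    Real.norm_eq_abs, sq_abs]

/-! ### the families against weights -/

/-- the weight of the coefficient of frequency `m` -/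
def Aw (E : ℕ → ℝ) (h : ℝ) (m : ℤ) : ℝ := E (m + 1).natAbs + h * (E (m + 3).natAbs + E (m - 1).natAbs)

theorem Aw_nonneg {E : ℕ → ℝ} {h : ℝ} (hE : ∀ n, 0 ≤ E n) (hh : 0 ≤ h) (m : ℤ) : 0 ≤ Aw E h m :=
  add_nonneg (hE _) (mul_nonneg hh (add_nonneg (hE _) (hE _)))

theorem wm_w {E : ℕ → ℝ} (hE : ∀ n, 0 ≤ E n) {η : ℂ} {h : ℝ} (hη : ‖η‖ ≤ h) {M : ℕ} {f : ℤ → ℂ} (hf : Sup M f) :
    ∑ n ∈ Finset.Icc (-((M + 3 : ℕ) : ℤ)) ((M + 3 : ℕ) : ℤ), ‖wm η f (n - 1)‖ * E n.natAbs ≤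
      ∑ m ∈ Finset.Icc (-(M : ℤ)) M, ‖f m‖ * Aw E h m := by
  have z : ∀ n : ℤ, n ∉ Finset.Icc (-(M : ℤ)) M → f n = 0 := hf
  have z2 : ∀ n : ℤ, (n < -(M : ℤ) ∨ (M : ℤ) < n) → ‖f n‖ = 0 := fun n hn => by
    rw [z n (by rw [Finset.mem_Icc]; omega), norm_zero]
  have s1 : ∀ k : ℤ, -3 ≤ k → k ≤ 3 →
      ∑ n ∈ Finset.Icc (-((M + 3 : ℕ) : ℤ)) ((M + 3 : ℕ) : ℤ), ‖f (n + k)‖ * E n.natAbs =
      ∑ m ∈ Finset.Icc (-(M : ℤ)) M, ‖f m‖ * E (m - k).natAbs := by
    intro k h1 h2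
    have := win_shiftR (f := fun m => ‖f m‖ * E (m - k).natAbs) (M := M) (M' := M + 3) k
      (fun n hn => by
        rw [z n hn]
        simp)
      (fun n hn => by
        rw [Finset.mem_Icc] at hn
        push_cast at hn
        rw [z2 (n + k) (by omega), zero_mul])
    rw [← this]
    refine Finset.sum_congr rfl fun n _ => ?_
    rw [add_sub_cancel_right]
  have a1 := s1 (-1) (by norm_num) (by norm_num)
  have a2 := s1 (-3) (by norm_num) (by norm_num)
  have a3 := s1 1 (by norm_num) (by norm_num)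
  calc ∑ n ∈ Finset.Icc (-((M + 3 : ℕ) : ℤ)) ((M + 3 : ℕ) : ℤ), ‖wm η f (n - 1)‖ * E n.natAbs
      ≤ ∑ n ∈ Finset.Icc (-((M + 3 : ℕ) : ℤ)) ((M + 3 : ℕ) : ℤ),
          (‖f (n + -1)‖ * E n.natAbs + h * (‖f (n + -3)‖ * E n.natAbs + ‖f (n + 1)‖ * E n.natAbs)) := by
        refine Finset.sum_le_sum fun n _ => ?_
        unfold wm
        rw [show n - 1 = n + -1 by ring, show n + -1 - 2 = n + -3 by ring, show n + -1 + 2 = n + 1 by ring]
        have k1 := norm_add_le (f (n + -1) + η * f (n + -3)) ((starRingEnd ℂ) η * f (n + 1))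
        have k2 := norm_add_le (f (n + -1)) (η * f (n + -3))
        rw [norm_mul] at k1 k2
        rw [Complex.norm_conj] at k1
        have k3 := mul_le_mul_of_nonneg_right hη (norm_nonneg (f (n + -3)))
        have k4 := mul_le_mul_of_nonneg_right hη (norm_nonneg (f (n + 1)))
        have k5 : ‖f (n + -1) + η * f (n + -3) + (starRingEnd ℂ) η * f (n + 1)‖ ≤
            ‖f (n + -1)‖ + h * (‖f (n + -3)‖ + ‖f (n + 1)‖) := by linarith
        refine (mul_le_mul_of_nonneg_right k5 (hE _)).trans (le_of_eq ?_)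
        ring
    _ = ∑ m ∈ Finset.Icc (-(M : ℤ)) M, ‖f m‖ * Aw E h m := by
        rw [Finset.sum_add_distrib, ← Finset.mul_sum, Finset.sum_add_distrib, a1, a2, a3, ← Finset.sum_add_distrib,
          Finset.mul_sum, ← Finset.sum_add_distrib]
        refine Finset.sum_congr rfl fun m _ => ?_
        unfold Aw
        rw [show m - -1 = m + 1 by ring, show m - -3 = m + 3 by ring]
        ring

theorem norm_kq : ‖kq 2‖ = 7 / 4 := by
  have h := nsq_kq
  have h0 := norm_nonneg (kq 2)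
  nlinarith

/-- **the two families against weights** -/
theorem fam_le {P : Par} {h : ℝ} (hη : ‖P.eta‖ ≤ h) {E1 E2 : ℕ → ℝ} (h1 : ∀ n, 0 ≤ E1 n) (h2 : ∀ n, 0 ≤ E2 n)
    {M : ℕ} {p r s : ℤ → ℂ} (hp : Sup M p) (hr : Sup M r) (hs : Sup M s) :
    ∑ n ∈ Finset.Icc (-((M + 3 : ℕ) : ℤ)) ((M + 3 : ℕ) : ℤ),
        (‖C1 P p r s n‖ * E1 n.natAbs + ‖C2 P p r s n‖ * E2 n.natAbs) ≤
      Aw (fun n => E1 n + E2 n) h 0
      + ∑ m ∈ Finset.Icc (-(M : ℤ)) M, ‖s m‖ * Aw (fun n => E1 n + E2 n) h m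
      + ∑ m ∈ Finset.Icc (-(M : ℤ)) M, ‖p m‖ * Aw (fun n => E1 n + E2 n) h m
      + 7 / 4 * ∑ m ∈ Finset.Icc (-(M : ℤ)) M, ‖r m‖ * Aw (fun n => E1 n + E2 n) h m := by
  set E : ℕ → ℝ := fun n => E1 n + E2 n with hEd
  have hE : ∀ n, 0 ≤ E n := fun n => add_nonneg (h1 n) (h2 n)
  have k0 := wm_w hE hη (d0_sup M)
  have k1 := wm_w hE hη hp
  have k2 := wm_w hE hη hr
  have k3 := wm_w hE hη hs
  have e0 : ∑ l ∈ Finset.Icc (-(M : ℤ)) M, ‖d0 l‖ * Aw E h l = Aw E h 0 := by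
    rw [Finset.sum_eq_single_of_mem 0 (by rw [Finset.mem_Icc]; omega)]
    · unfold d0
      simp
    · intro l _ hl
      unfold d0
      rw [if_neg hl]
      simp
  rw [e0] at k0
  have key : ∀ n : ℤ, ‖C1 P p r s n‖ * E1 n.natAbs + ‖C2 P p r s n‖ * E2 n.natAbs ≤
      ‖wm P.eta d0 (n - 1)‖ * E n.natAbs + ‖wm P.eta s (n - 1)‖ * E n.natAbs + ‖wm P.eta p (n - 1)‖ * E n.natAbs
        + 7 / 4 * (‖wm P.eta r (n - 1)‖ * E n.natAbs) := by
    intro n
    have c1 := mul_le_mul_of_nonneg_right (C1_norm P p r s n) (h1 n.natAbs)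
    have c2 := mul_le_mul_of_nonneg_right (C2_norm P p r s n) (h2 n.natAbs)
    rw [norm_kq] at c1 c2
    show _ ≤ ‖wm P.eta d0 (n - 1)‖ * (E1 n.natAbs + E2 n.natAbs) + ‖wm P.eta s (n - 1)‖ * (E1 n.natAbs + E2 n.natAbs)
      + ‖wm P.eta p (n - 1)‖ * (E1 n.natAbs + E2 n.natAbs) + 7 / 4 * (‖wm P.eta r (n - 1)‖ * (E1 n.natAbs + E2 n.natAbs))
    linarith
  refine (Finset.sum_le_sum fun n _ => key n).trans ?_
  rw [Finset.sum_add_distrib, Finset.sum_add_distrib, Finset.sum_add_distrib, ← Finset.mul_sum]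
  linarith

/-! ### the natural numbers -/

/-- the distance -/
def adf (a b : ℕ) : ℕ := Nat.add (Nat.sub a b) (Nat.sub b a)

theorem adf_eq (a b : ℕ) : adf a b = ((a : ℤ) - b).natAbs := by
  have e : adf a b = (a - b) + (b - a) := rfl
  rw [e]
  omega

/-- the weight of the coordinate pair `x, x + 1` of `s` (times `10 ^ 5`), `te = 10 ^ 5 |eta|` -/
def wS (E : ℕ → ℕ) (te x K : ℕ) : ℕ :=
  Nat.add (Nat.mul 100000 (E (adf x K))) (Nat.mul te (Nat.add (E (adf (Nat.add x 2) K)) (E (adf x (Nat.add K 2)))))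
/-- the weight of the frequencies `± m` of `p`, `m ≥ 2` -/
def wH (E : ℕ → ℕ) (te m : ℕ) : ℕ :=
  Nat.add (Nat.mul 100000 (Nat.add (E (Nat.add m 1)) (E (Nat.sub m 1))))
    (Nat.mul te (Nat.add (Nat.add (E (Nat.add m 3)) (E (Nat.sub m 1))) (Nat.add (E (adf m 3)) (E (Nat.add m 1)))))
/-- the weight of the frequency `0` -/
def w0 (E : ℕ → ℕ) (te : ℕ) : ℕ := Nat.add (Nat.mul 100000 (E 1)) (Nat.mul te (Nat.add (E 3) (E 1)))
/-- the weights of `p`, coordinate `j` -/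
def wJ (E : ℕ → ℕ) (te j : ℕ) : ℕ :=
  bif Nat.beq j 0 then w0 E te else wH E te (Nat.mul 2 (Nat.div (Nat.add j 1) 2))
/-- four times the weights of the coordinates -/
def tauN (E : ℕ → ℕ) (te K L i : ℕ) : ℕ :=
  bif Nat.beq i 0 then Nat.mul 4 (w0 E te)
  else bif Nat.ble (Nat.succ i) (bp K) then Nat.mul 4 (wS E te (Nat.sub (Nat.mul 2 (Nat.div (Nat.add i 1) 2)) 1) K)
  else bif Nat.ble (Nat.succ i) (br K L) then Nat.mul 4 (wJ E te (Nat.sub i (bp K)))
  else Nat.mul 7 (wJ E te (Nat.sub i (br K L)))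

section

variable {E : ℕ → ℕ} {te : ℕ}

theorem w0_eq : ((w0 E te : ℕ) : ℝ) = 100000 * Aw (fun n => (E n : ℝ)) (te / 100000) 0 := by
  have e : w0 E te = 100000 * E 1 + te * (E 3 + E 1) := rfl
  rw [e]
  unfold Aw
  have a1 : ((0 : ℤ) + 1).natAbs = 1 := rfl
  have a2 : ((0 : ℤ) + 3).natAbs = 3 := rfl
  have a3 : ((0 : ℤ) - 1).natAbs = 1 := rfl
  rw [a1, a2, a3]
  push_cast
  ring

theorem wS_eq (K x : ℕ) (n : ℤ) (hn : n + K + 1 = x) :
    ((wS E te x K : ℕ) : ℝ) = 100000 * Aw (fun n => (E n : ℝ)) (te / 100000) n := by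
  have e : wS E te x K = 100000 * E (adf x K) + te * (E (adf (x + 2) K) + E (adf x (K + 2))) := rfl
  rw [e]
  unfold Aw
  have a1 : adf x K = (n + 1).natAbs := by
    rw [adf_eq]
    congr 1
    omega
  have a2 : adf (x + 2) K = (n + 3).natAbs := by
    rw [adf_eq]
    congr 1
    push_cast
    omega
  have a3 : adf x (K + 2) = (n - 1).natAbs := by
    rw [adf_eq]
    congr 1
    push_cast
    omega
  rw [a1, a2, a3]
  push_cast
  ring

theorem wH_eq (m : ℕ) (hm : 1 ≤ m) (n : ℤ) (hn : n = m) :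
    ((wH E te m : ℕ) : ℝ) =
      100000 * (Aw (fun n => (E n : ℝ)) (te / 100000) n + Aw (fun n => (E n : ℝ)) (te / 100000) (-n)) := by
  have e : wH E te m = 100000 * (E (m + 1) + E (m - 1)) + te * ((E (m + 3) + E (m - 1)) + (E (adf m 3) + E (m + 1))) := rfl
  rw [e]
  unfold Aw
  subst hn
  have a1 : ((m : ℤ) + 1).natAbs = m + 1 := by omega
  have a2 : ((m : ℤ) + 3).natAbs = m + 3 := by omega
  have a3 : ((m : ℤ) - 1).natAbs = m - 1 := by omega
  have a4 : (-(m : ℤ) + 1).natAbs = m - 1 := by omega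
  have a5 : (-(m : ℤ) + 3).natAbs = adf m 3 := by
    rw [adf_eq]
    omega
  have a6 : (-(m : ℤ) - 1).natAbs = m + 1 := by omega
  rw [a1, a2, a3, a4, a5, a6]
  push_cast
  ring

theorem tauN_zero (K L : ℕ) : tauN E te K L 0 = 4 * w0 E te := rfl

theorem ble_succ_true {a b : ℕ} (h : a < b) : Nat.ble (Nat.succ a) b = true := Nat.ble_eq_true_of_le h
theorem ble_succ_false {a b : ℕ} (h : b ≤ a) : Nat.ble (Nat.succ a) b = false := by
  cases h1 : Nat.ble (Nat.succ a) b with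
  | false => rfl
  | true =>
    have : a + 1 ≤ b := Nat.le_of_ble_eq_true h1
    omega
theorem beq_false {a : ℕ} (h : a ≠ 0) : Nat.beq a 0 = false := by
  cases a with
  | zero => exact absurd rfl h
  | succ n => rfl

theorem tauN_s {K L i : ℕ} (h1 : 1 ≤ i) (h2 : i < bp K) : tauN E te K L i = 4 * wS E te (2 * ((i + 1) / 2) - 1) K := by
  unfold tauN
  rw [beq_false (by omega), cond_false, ble_succ_true h2, cond_true]
  rfl

theorem tauN_p {K L i : ℕ} (h1 : bp K ≤ i) (h2 : i < br K L) : tauN E te K L i = 4 * wJ E te (i - bp K) := by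
  have : 0 < bp K := by unfold bp; omega
  unfold tauN
  rw [beq_false (by omega), cond_false, ble_succ_false h1, cond_false, ble_succ_true h2, cond_true]
  rfl

theorem tauN_r {K L i : ℕ} (h2 : br K L ≤ i) : tauN E te K L i = 7 * wJ E te (i - br K L) := by
  have : bp K ≤ br K L := by unfold br; omega
  have : 0 < bp K := by unfold bp; omega
  unfold tauN
  rw [beq_false (by omega), cond_false, ble_succ_false (by omega), cond_false, ble_succ_false h2, cond_false]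
  rfl

theorem wJ_zero : wJ E te 0 = w0 E te := rfl

theorem wJ_pos {j : ℕ} (h : 1 ≤ j) : wJ E te j = wH E te (2 * ((j + 1) / 2)) := by
  unfold wJ
  rw [beq_false (by omega), cond_false]
  rfl

end

/-! ### the diagonal form -/

/-- **the families of a head in the coordinates**: `te ≥ 10 ^ 5 |eta|`, the unit of `E` is `1 / q` -/
theorem head_CB {P : Par} {te : ℕ} (hη : ‖P.eta‖ ≤ te / 100000) {E1 E2 : ℕ → ℝ} (h1 : ∀ n, 0 ≤ E1 n)
    (h2 : ∀ n, 0 ≤ E2 n) {K L M : ℕ} (hK : Odd K) (hKM : K ≤ M) (hLM : L ≤ M) (E : ℕ → ℕ) {q : ℝ} (hq : 0 < q)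
    (hE : ∀ n, E1 n + E2 n = E n / q) (v : ℕ → ℝ) (v0 : v 0 = 1) :
    (400000 * q * ∑ n ∈ Finset.Icc (-((M + 3 : ℕ) : ℤ)) ((M + 3 : ℕ) : ℤ),
        (‖C1 P (pV K L v) (rV K L v) (sV K v) n‖ * E1 n.natAbs +
          ‖C2 P (pV K L v) (rV K L v) (sV K v) n‖ * E2 n.natAbs)) ^ 2 ≤
      (((∑ i ∈ Finset.range (nt K L), (tauN E te K L i : ℕ) : ℕ) : ℝ) + 15 * (w0 E te : ℕ)) / 2 *
        ∑ i ∈ Finset.range (nt K L), (tauN E te K L i : ℝ) * v i ^ 2 := by
  set h : ℝ := (te : ℝ) / 100000 with hh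
  have hh0 : 0 ≤ h := by positivity
  set A : ℤ → ℝ := Aw (fun n => (E n : ℝ)) h with hA
  have hA0 : ∀ m, 0 ≤ A m := Aw_nonneg (fun n => Nat.cast_nonneg _) hh0
  set τ : ℕ → ℝ := fun i => (tauN E te K L i : ℝ) with hτ
  have hτ0 : ∀ i, 0 ≤ τ i := fun i => Nat.cast_nonneg _
  have a := arrV (K := K) (L := L) (N := M) hKM hLM v
  have f1 := fam_le hη h1 h2 a.sp a.sr a.ss
  set X := ∑ n ∈ Finset.Icc (-((M + 3 : ℕ) : ℤ)) ((M + 3 : ℕ) : ℤ),
        (‖C1 P (pV K L v) (rV K L v) (sV K v) n‖ * E1 n.natAbs +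
          ‖C2 P (pV K L v) (rV K L v) (sV K v) n‖ * E2 n.natAbs) with hX
  have hX0 : 0 ≤ X := Finset.sum_nonneg fun n _ =>
    add_nonneg (mul_nonneg (norm_nonneg _) (h1 _)) (mul_nonneg (norm_nonneg _) (h2 _))
  have eA : ∀ m, Aw (fun n => E1 n + E2 n) h m = A m / q := by
    intro m
    rw [hA]
    unfold Aw
    simp only [hE]
    ring
  simp only [eA] at f1
  have eq1 : ∀ f : ℤ → ℂ, ∑ m ∈ Finset.Icc (-(M : ℤ)) M, ‖f m‖ * (A m / q) =
      (∑ m ∈ Finset.Icc (-(M : ℤ)) M, ‖f m‖ * A m) / q := by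
    intro f
    rw [Finset.sum_div]
    exact Finset.sum_congr rfl fun m _ => by ring
  simp only [eq1] at f1
  have es := sum_s K M hKM v A
  have ep : ∑ n ∈ Finset.Icc (-(M : ℤ)) M, ‖pV K L v n‖ * A n = _ := sum_h L M (bp K) hLM v A
  have er : ∑ n ∈ Finset.Icc (-(M : ℤ)) M, ‖rV K L v n‖ * A n = _ := sum_h L M (br K L) hLM v A
  rw [es, ep, er] at f1
  -- Cauchy–Schwarz data of the four groups, at the scale `4 * 10 ^ 5`
  have g0 : CB (400000 * A 0) (400000 * A 0) (τ 0 * v 0 ^ 2) := by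
    have e : τ 0 = 400000 * A 0 := by
      show ((tauN E te K L 0 : ℕ) : ℝ) = _
      rw [tauN_zero]
      push_cast
      rw [w0_eq]
      ring
    have := hA0 0
    rw [e, v0]
    exact ⟨by positivity, by positivity, by positivity, le_of_eq (by ring)⟩
  have gs := (CB.sum (Is K) A (fun n => ‖sV K v n‖) (fun n _ => hA0 n) (fun n _ => norm_nonneg _)).smul
    (by norm_num : (0 : ℝ) ≤ 400000)
  have gp := ((CB.sum (Ih L) (fun n => A n + A (-n)) (fun n => ‖hV L (bp K) v n‖) (fun n _ => add_nonneg (hA0 n) (hA0 _))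
    (fun n _ => norm_nonneg _))).smul (by norm_num : (0 : ℝ) ≤ 400000)
  have gr := ((CB.sum (Ih L) (fun n => A n + A (-n)) (fun n => ‖hV L (br K L) v n‖) (fun n _ => add_nonneg (hA0 n) (hA0 _))
    (fun n _ => norm_nonneg _))).smul (by norm_num : (0 : ℝ) ≤ 700000)
  have gp0 : CB (400000 * (‖hV L (bp K) v 0‖ * A 0)) (400000 * A 0) (400000 * (A 0 * ‖hV L (bp K) v 0‖ ^ 2)) := by
    have := hA0 0
    have hn := norm_nonneg (hV L (bp K) v 0)
    exact ⟨by positivity, by positivity, by positivity, le_of_eq (by ring)⟩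
  have gr0 : CB (700000 * (‖hV L (br K L) v 0‖ * A 0)) (700000 * A 0) (700000 * (A 0 * ‖hV L (br K L) v 0‖ ^ 2)) := by
    have := hA0 0
    have hn := norm_nonneg (hV L (br K L) v 0)
    exact ⟨by positivity, by positivity, by positivity, le_of_eq (by ring)⟩
  -- the weights of the pairs
  have ws : ∀ n ∈ Is K, τ (1 + (n + K).toNat) = 400000 * A n ∧ τ (2 + (n + K).toNat) = 400000 * A n := by
    intro n hn
    have hf := Finset.mem_filter.1 hn
    have hi := Finset.mem_Icc.1 hf.1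
    obtain ⟨y, hy⟩ := Int.not_even_iff_odd.1 hf.2
    obtain ⟨z, hz⟩ := hK
    have key : ∀ i : ℕ, 1 ≤ i → i < bp K → n + K + 1 = ((2 * ((i + 1) / 2) - 1 : ℕ) : ℤ) → τ i = 400000 * A n := by
      intro i i1 i2 i3
      show ((tauN E te K L i : ℕ) : ℝ) = _
      rw [tauN_s i1 i2]
      push_cast
      rw [wS_eq K _ n i3]
      ring
    refine ⟨key _ (by omega) (by unfold bp; omega) ?_, key _ (by omega) (by unfold bp; omega) ?_⟩
    · omega
    · omega
  have keyH : ∀ n ∈ Ih L, ∀ j : ℕ, 1 ≤ j → n = ((2 * ((j + 1) / 2) : ℕ) : ℤ) →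
      ((wJ E te j : ℕ) : ℝ) = 100000 * (A n + A (-n)) := by
    intro n hn j j1 j2
    rw [wJ_pos j1, wH_eq _ (by omega) n j2]
  have wp : ∀ n ∈ Ih L, τ (bp K + (n.toNat - 1)) = 400000 * (A n + A (-n)) ∧
      τ (bp K + n.toNat) = 400000 * (A n + A (-n)) := by
    intro n hn
    have hf := Finset.mem_filter.1 hn
    have hi := Finset.mem_Icc.1 hf.1
    obtain ⟨y, hy⟩ := hf.2
    have key : ∀ j : ℕ, 1 ≤ j → j ≤ L → n = ((2 * ((j + 1) / 2) : ℕ) : ℤ) → τ (bp K + j) = 400000 * (A n + A (-n)) := by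
      intro j j1 j2 j3
      show ((tauN E te K L (bp K + j) : ℕ) : ℝ) = _
      rw [tauN_p (by omega) (by unfold br; omega), Nat.add_sub_cancel_left]
      push_cast
      rw [keyH n hn j j1 j3]
      ring
    exact ⟨key _ (by omega) (by omega) (by omega), key _ (by omega) (by omega) (by omega)⟩
  have wr : ∀ n ∈ Ih L, τ (br K L + (n.toNat - 1)) = 700000 * (A n + A (-n)) ∧
      τ (br K L + n.toNat) = 700000 * (A n + A (-n)) := by
    intro n hn
    have hf := Finset.mem_filter.1 hn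
    have hi := Finset.mem_Icc.1 hf.1
    obtain ⟨y, hy⟩ := hf.2
    have key : ∀ j : ℕ, 1 ≤ j → n = ((2 * ((j + 1) / 2) : ℕ) : ℤ) → τ (br K L + j) = 700000 * (A n + A (-n)) := by
      intro j j1 j3
      show ((tauN E te K L (br K L + j) : ℕ) : ℝ) = _
      rw [tauN_r (by omega), Nat.add_sub_cancel_left]
      push_cast
      rw [keyH n hn j j1 j3]
      ring
    exact ⟨key _ (by omega) (by omega), key _ (by omega) (by omega)⟩
  have tp0 : τ (bp K) = 400000 * A 0 := by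
    show ((tauN E te K L (bp K) : ℕ) : ℝ) = _
    rw [tauN_p le_rfl (by unfold br; omega), Nat.sub_self, wJ_zero]
    push_cast
    rw [w0_eq]
    ring
  have tr0 : τ (br K L) = 700000 * A 0 := by
    show ((tauN E te K L (br K L) : ℕ) : ℝ) = _
    rw [tauN_r le_rfl, Nat.sub_self, wJ_zero]
    push_cast
    rw [w0_eq]
    ring
  have t00 : τ 0 = 400000 * A 0 := by
    show ((tauN E te K L 0 : ℕ) : ℝ) = _
    rw [tauN_zero]
    push_cast
    rw [w0_eq]
    ring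
  have hw0 : ((w0 E te : ℕ) : ℝ) = 100000 * A 0 := w0_eq
  -- sums of weights
  have S1 := pair_s K τ hτ0
  have S2 := pair_h L (bp K) τ hτ0
  have S3 := pair_h L (br K L) τ hτ0
  have Q1 := pair_s K (fun i => τ i * v i ^ 2) (fun i => mul_nonneg (hτ0 i) (sq_nonneg _))
  have Q2 := pair_h L (bp K) (fun i => τ i * v i ^ 2) (fun i => mul_nonneg (hτ0 i) (sq_nonneg _))
  have Q3 := pair_h L (br K L) (fun i => τ i * v i ^ 2) (fun i => mul_nonneg (hτ0 i) (sq_nonneg _))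
  have split : ∀ w : ℕ → ℝ, ∑ i ∈ Finset.range (nt K L), w i = w 0 + ∑ i ∈ Finset.Ico 1 (bp K), w i +
      ∑ i ∈ Finset.Ico (bp K) (bp K + (L + 1)), w i + ∑ i ∈ Finset.Ico (br K L) (br K L + (L + 1)), w i := by
    intro w
    rw [Finset.range_eq_Ico, ← Finset.sum_Ico_consecutive w (Nat.zero_le (br K L)) (by unfold nt br; omega),
      ← Finset.sum_Ico_consecutive w (Nat.zero_le (bp K)) (by unfold br; omega : bp K ≤ br K L),
      ← Finset.sum_Ico_consecutive w (Nat.zero_le 1) (by unfold bp; omega : 1 ≤ bp K)]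
    have a2 : ∑ i ∈ Finset.Ico 0 1, w i = w 0 := by simp
    rw [a2]
    rfl
  have ST := split τ
  have QT := split (fun i => τ i * v i ^ 2)
  have s1 : ∑ n ∈ Is K, (τ (1 + (n + K).toNat) + τ (2 + (n + K).toNat)) = 800000 * ∑ n ∈ Is K, A n := by
    rw [Finset.mul_sum]
    refine Finset.sum_congr rfl fun n hn => ?_
    rw [(ws n hn).1, (ws n hn).2]
    ring
  have s2 : ∑ n ∈ Ih L, (τ (bp K + (n.toNat - 1)) + τ (bp K + n.toNat)) = 800000 * ∑ n ∈ Ih L, (A n + A (-n)) := by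
    rw [Finset.mul_sum]
    refine Finset.sum_congr rfl fun n hn => ?_
    rw [(wp n hn).1, (wp n hn).2]
    ring
  have s3 : ∑ n ∈ Ih L, (τ (br K L + (n.toNat - 1)) + τ (br K L + n.toNat)) =
      1400000 * ∑ n ∈ Ih L, (A n + A (-n)) := by
    rw [Finset.mul_sum]
    refine Finset.sum_congr rfl fun n hn => ?_
    rw [(wr n hn).1, (wr n hn).2]
    ring
  have q1 : ∑ n ∈ Is K, (τ (1 + (n + K).toNat) * v (1 + (n + K).toNat) ^ 2
      + τ (2 + (n + K).toNat) * v (2 + (n + K).toNat) ^ 2) = 400000 * ∑ n ∈ Is K, A n * ‖sV K v n‖ ^ 2 := by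
    rw [Finset.mul_sum]
    refine Finset.sum_congr rfl fun n hn => ?_
    rw [(ws n hn).1, (ws n hn).2, nsq_s v hn]
    ring
  have q2 : ∑ n ∈ Ih L, (τ (bp K + (n.toNat - 1)) * v (bp K + (n.toNat - 1)) ^ 2
      + τ (bp K + n.toNat) * v (bp K + n.toNat) ^ 2) =
      400000 * ∑ n ∈ Ih L, (A n + A (-n)) * ‖hV L (bp K) v n‖ ^ 2 := by
    rw [Finset.mul_sum]
    refine Finset.sum_congr rfl fun n hn => ?_
    rw [(wp n hn).1, (wp n hn).2, nsq_h v hn]
    ring
  have q3 : ∑ n ∈ Ih L, (τ (br K L + (n.toNat - 1)) * v (br K L + (n.toNat - 1)) ^ 2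
      + τ (br K L + n.toNat) * v (br K L + n.toNat) ^ 2) =
      700000 * ∑ n ∈ Ih L, (A n + A (-n)) * ‖hV L (br K L) v n‖ ^ 2 := by
    rw [Finset.mul_sum]
    refine Finset.sum_congr rfl fun n hn => ?_
    rw [(wr n hn).1, (wr n hn).2, nsq_h v hn]
    ring
  beta_reduce at Q1 Q2 Q3 QT
  rw [s1] at S1
  rw [s2, tp0] at S2
  rw [s3, tr0] at S3
  rw [q1] at Q1
  rw [q2, tp0, ← nsq_h0 L (bp K) v] at Q2
  rw [q3, tr0, ← nsq_h0 L (br K L) v] at Q3
  have tot := ((((g0.add gs).add gp0).add gp).add gr0).add gr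
  have e1 : (((∑ i ∈ Finset.range (nt K L), (tauN E te K L i : ℕ) : ℕ) : ℝ)) = ∑ i ∈ Finset.range (nt K L), τ i := by
    push_cast
    rfl
  rw [e1, hw0]
  generalize ∑ n ∈ Is K, ‖sV K v n‖ * A n = xs at *
  generalize ∑ n ∈ Ih L, ‖hV L (bp K) v n‖ * (A n + A (-n)) = xp at *
  generalize ∑ n ∈ Ih L, ‖hV L (br K L) v n‖ * (A n + A (-n)) = xr at *
  have fin : CB (400000 * q * X) ((∑ i ∈ Finset.range (nt K L), τ i + 15 * (100000 * A 0)) / 2)
      (∑ i ∈ Finset.range (nt K L), τ i * v i ^ 2) := by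
    refine tot.mono ?_ ?_ ?_ ?_
    · positivity
    · have f2 := mul_le_mul_of_nonneg_left f1 (by positivity : 0 ≤ 400000 * q)
      refine f2.trans (le_of_eq ?_)
      field_simp
      ring
    · rw [ST, t00]
      linarith
    · rw [QT]
      linarith
  exact fin.2.2.2

end Pool.Agent.Helper57.SH
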