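import Pool.Agent.Helper57.SH.PTail
import Pool.Agent.Helper51.SH.Low
import Pool.Agent.Helper75.SH.HTR

/-!
# Project RC, SHARP, cell engine: the tail `PT` of the rows of (D2) for the data of a record

`okPR`: the kernel check (packed error numbers `E1`, `E2` of the modes of the two tables, `te ≥ 10⁵ |eta|`).
`ptR`: the computed coefficients of the diagonal form. `PT_rec`: the hypothesis `hPT` of the head/tail theorem.
-/

set_option autoImplicit false

open MeasureTheory Set Filter Topology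

namespace Pool.Agent.Helper57.SH

open Helper49.LT hiding sg
open Helper49.Sharp Helper49.Cell
open Helper95.SH
open Helper41.SH (IA inv)
open Helper56.RC (fc)
open Pool.Agent.Helper20.RC (lk lk_ge lk_sq)
open Helper54.RC.Fast (dg PF AP)
open Helper70.SH (cd Len)
open Helper76.RC.TPoly Helper76.RC.TrD
open Pool.Agent.Helper51.SH (Tab)
open Pool.Agent.Helper56.TS (TI)
open Pool.Agent.Helper75.SH (WtR okW)

/-- the sum of the packed error numbers -/
def eF (bE E1 E2 n : ℕ) : ℕ := Nat.add (dg bE n E1) (dg bE n E2)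

/-- the computed coefficients -/
def ptD (te K L l1 nu aN aD Sc q bE E1 E2 i : ℕ) : ℕ :=
  Nat.succ (Nat.div (Nat.mul (numP te K L l1 nu aN Sc (eF bE E1 E2)) (tauN (eF bE E1 E2) te K L i)) (denP l1 aD q))

theorem okDg_of {num den : ℕ} {τ D : ℕ → ℕ} (n : ℕ) (h : ∀ i, i < n → num * τ i ≤ den * D i) :
    okDg num den τ D n = true := by
  induction n with
  | zero => rfl
  | succ n ih =>
    unfold okDg
    rw [Helper76.SH.bif_iff]
    exact ⟨Nat.ble_eq_true_of_le (h n (Nat.lt_succ_self n)), ih fun i hi => h i (by omega)⟩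

theorem denP_pos {l1 aD q : ℕ} (h1 : 0 < aD) (h2 : 0 < q) : 0 < denP l1 aD q := by
  show 0 < (aD * 128000000000000000) * ((l1 + 1) * (q * q))
  positivity

/-- the computed coefficients satisfy the check -/
theorem okPT_of {te K L l1 k1 nu aN aD Sc q bE E1 E2 : ℕ} (h1 : 0 < nu) (h2 : 0 < aN) (h3 : 0 < aD) (h4 : 0 < Sc)
    (h5 : 0 < q) (h6 : l1 ≤ 2 * k1) (h7 : L + 1 ≤ 2 * k1) :
    okPT te K L l1 k1 nu aN aD Sc q (eF bE E1 E2) (ptD te K L l1 nu aN aD Sc q bE E1 E2) = true := by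
  unfold okPT
  rw [Helper76.SH.bif_iff, Helper76.SH.bif_iff, Helper76.SH.bif_iff]
  refine ⟨Nat.ble_eq_true_of_le ?_, Nat.ble_eq_true_of_le h6, Nat.ble_eq_true_of_le h7, okDg_of _ fun i _ => ?_⟩
  · show 0 < ((aN * aD) * Sc) * (nu * q)
    positivity
  · have h := denP_pos (l1 := l1) h3 h5
    exact (Nat.lt_mul_div_succ (numP te K L l1 nu aN Sc (eF bE E1 E2) * tauN (eF bE E1 E2) te K L i) h).le

/-- the initial part of a table with `max K L + 3` modes -/
def cutP (K L : ℕ) (ps : List PF) : List PF := ps.take (Nat.add (Nat.add (Nat.sub K L) L) 3)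

/-- **the kernel check of a record**: `te ≥ 10⁵ |eta|`, `E1`, `E2` the packed error numbers (width `bE + 1`) -/
def okPR (R : Rec) (K L k1 te bE E1 E2 b1 r1 b2 r2 : ℕ) (ps1 ps2 : List PF) : Bool :=
  bif decide (R.e1 * R.e1 + R.e2 * R.e2 ≤ (te : ℤ) * te) then
    bif Nat.ble (Nat.add L 1) (Nat.mul 2 k1) then
      bif Nat.ble (Nat.add (Nat.add (Nat.sub K L) L) 3) (cutP K L ps1).length then
        bif Nat.ble (Nat.add (Nat.add (Nat.sub K L) L) 3) (cutP K L ps2).length then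
          bif okTD b1 r1 (Nat.mul 2 k1) 1000 bE E1 R.D1 (cutP K L ps1) then
            okTD b2 r2 (Nat.mul 2 k1) 1000 bE E2 R.D2 (cutP K L ps2)
          else false
        else false
      else false
    else false
  else false

/-- the computed coefficients of a record -/
def ptR (R : Rec) (T : TI) (W : WtR) (Sc te bE E1 E2 s : ℕ) (i : ℕ) : ℕ :=
  ptD te T.K T.L (Nat.mul 2 W.k1) R.nu.toNat W.alI 1000 Sc (Nat.mul (Nat.pow 2 s) 2000) bE E1 E2 i

/-- **the tail `PT` of a record** -/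
theorem PT_rec {R : Rec} {C : Crt} (h : R.ok C = true) {K0 : ℕ} (len : Len R K0) (s : ℕ) {T : TI} {W : WtR}
    (hW : okW R T W = true) {S : ℝ} {Sc : ℕ} (hS : (Sc : ℝ) = S) (hS0 : 0 < S) {te bE E1 E2 b1 r1 b2 r2 sT : ℕ}
    {ps1 ps2 : List PF} (hp1 : Tab b1 sT 1000 R.D1 ps1) (hp2 : Tab b2 sT 1000 R.D2 ps2)
    (hc : okPR R T.K T.L W.k1 te bE E1 E2 b1 r1 b2 r2 ps1 ps2 = true) (v : ℕ → ℝ) (v0 : v 0 = 1) :
    ∑' j : ℕ, (lk (j + W.k1) ^ 2 - 1) *
      ‖qk (cd R h len s) (max T.K T.L) (pV T.K T.L v) (rV T.K T.L v) (sV T.K v) (j + W.k1)‖ ^ 2 ≤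
      PTd (cd R h len s).P.nu ((W.alI : ℝ) / 1000) S (ptR R T W Sc te bE E1 E2 sT) (nt T.K T.L) v := by
  have k := Rec.ok_sound h
  have hW' := hW
  unfold okW at hW'
  rw [Helper76.SH.bif_iff] at hW'
  obtain ⟨-, w⟩ := hW'
  obtain ⟨g1, g2, g3, g4, g5, g6, g7, g8, g8', g9, g10, -⟩ := of_decide_eq_true w
  unfold okPR at hc
  rw [Helper76.SH.bif_iff, Helper76.SH.bif_iff, Helper76.SH.bif_iff, Helper76.SH.bif_iff, Helper76.SH.bif_iff] at hc
  obtain ⟨c1, c2, c3, c4, c5, c6⟩ := hc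
  have c1 : R.e1 * R.e1 + R.e2 * R.e2 ≤ (te : ℤ) * te := of_decide_eq_true c1
  have c2 : T.L + 1 ≤ 2 * W.k1 := Nat.le_of_ble_eq_true c2
  have c3 : (T.K - T.L) + T.L + 3 ≤ (cutP T.K T.L ps1).length := Nat.le_of_ble_eq_true c3
  have c4 : (T.K - T.L) + T.L + 3 ≤ (cutP T.K T.L ps2).length := Nat.le_of_ble_eq_true c4
  have hν : (0 : ℝ) < (R.nu : ℝ) / 100000 := k.nu0
  have hνi : 0 < R.nu := by
    have : (0 : ℝ) < (R.nu : ℝ) := by
      by_contra hc
      rw [not_lt] at hc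
      linarith
    exact_mod_cast this
  have hν2 : 0 < R.nu.toNat := by omega
  have hν3 : ((R.nu.toNat : ℕ) : ℝ) = R.nu := by
    have : ((R.nu.toNat : ℕ) : ℤ) = R.nu := Int.toNat_of_nonneg hνi.le
    exact_mod_cast this
  have hη : ‖(cd R h len s).P.eta‖ ≤ te / 100000 := by
    have e0 : ‖R.par.eta‖ ^ 2 ≤ ((te : ℝ) / 100000) ^ 2 := by
      rw [Helper70.SH.eta_sq]
      have : (R.e1 : ℝ) * R.e1 + R.e2 * R.e2 ≤ (te : ℝ) * te := by exact_mod_cast c1
      rw [div_pow]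
      norm_num
      linarith
    exact (abs_le_of_sq_le_sq' e0 (by positivity)).2
  have hSc : 0 < Sc := by
    rw [← hS] at hS0
    exact_mod_cast hS0
  have hq : 0 < 2 ^ sT * 2000 := by positivity
  have ok := okPT_of (te := te) (K := T.K) (L := T.L) (bE := bE) (E1 := E1) (E2 := E2) hν2 g1 (by norm_num : 0 < 1000)
    hSc hq (le_refl (2 * W.k1)) c2
  have hq2 : ((2 ^ sT * 2000 : ℕ) : ℝ) = 2 ^ sT * (2 * (1000 : ℕ)) := by push_cast; ring
  have t1 : ∀ n : ℕ, n ≤ max T.K T.L + 3 →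
      TD (cd R h len s).Th1 (cd R h len s).Th1' (2 * W.k1) n ((dg bE n E1 : ℕ) / (2 ^ sT * 2000 : ℕ)) := by
    intro n hn
    rw [hq2]
    refine TD_tab b1 r1 sT (2 * W.k1) 1000 bE E1 R.D1 (cutP T.K T.L ps1) k.i1 (hp1.take _) c5 n (le_trans hn ?_)
    refine le_trans ?_ c3
    rcases le_total T.K T.L with h1 | h1
    · rw [max_eq_right h1]; omega
    · rw [max_eq_left h1]; omega
  have t2 : ∀ n : ℕ, n ≤ max T.K T.L + 3 →
      TD (cd R h len s).Th2 (cd R h len s).Th2' (2 * W.k1) n ((dg bE n E2 : ℕ) / (2 ^ sT * 2000 : ℕ)) := by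
    intro n hn
    rw [hq2]
    refine TD_tab b2 r2 sT (2 * W.k1) 1000 bE E2 R.D2 (cutP T.K T.L ps2) k.i2 (hp2.take _) c6 n (le_trans hn ?_)
    refine le_trans ?_ c4
    rcases le_total T.K T.L with h1 | h1
    · rw [max_eq_right h1]; omega
    · rw [max_eq_left h1]; omega
  have main := hPT_of (c := cd R h len s) (te := te) (K := T.K) (L := T.L) (l1 := 2 * W.k1) (k1 := W.k1)
    (nu := R.nu.toNat) (aN := W.alI) (aD := 1000) (Sc := Sc) (q := 2 ^ sT * 2000)
    (fun n => by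
      show fc (fun _ => (0 : ℂ)) n = 0
      rw [Helper87.RC.fc_eq]
      simp) (Nat.odd_iff.2 g9) hη
    (by
      rw [hν3]
      rfl)
    (E1 := fun n => dg bE n E1) (E2 := fun n => dg bE n E2) (E := eF bE E1 E2) (fun n => rfl) t1 t2 ok v v0
  rw [hS] at main
  have e3 : ((W.alI : ℕ) : ℝ) / ((1000 : ℕ) : ℝ) = (W.alI : ℝ) / 1000 := by norm_num
  rw [e3] at main
  exact main

end Pool.Agent.Helper57.SH
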